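import Pool.Agent.H61.Stein.Tri

/-! Dymacek's symmetry for parity-regular Steinhaus matrices, both parities. -/

namespace Pool.Agent.H61.Stein

open Finset

/-- parity of the degree of vertex `i`, as an element of `ZMod 2`. -/
def par (x : ℕ → ZMod 2) (N i : ℕ) : ZMod 2 :=
  ∑ j ∈ range i, entry x j i + ∑ j ∈ Ioc i N, entry x i j

theorem par_mid (x : ℕ → ZMod 2) (N m : ℕ) (h : m + 1 < N) :
    par x N (m + 1) = tri (fun k => x (k + 2)) m 0 + tri (fun k => x (N - k)) m 0 + x (m + 2) := by
  unfold par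
  rw [col_sum, row_sum x m N (by omega)]
  have h1 : entry x m (m + 1) = tri (fun k => x (k + 1)) m 0 := entry_left x m 0
  have h2 : entry x (m + 1) (m + 1 + 1) = tri (fun k => x (k + 1)) (m + 1) 0 :=
    entry_left x (m + 1) 0
  have h3 : entry x m N = tri (fun k => x (N - k)) m 0 := entry_right x N m 0
  have h4 : tri (fun k => x (k + 1)) (m + 1) 0 =
      tri (fun k => x (k + 1)) m 0 + tri (fun k => x (k + 1)) m 1 := rfl
  have h5 : tri (fun k => x (k + 2)) m 0 = tri (fun k => x (k + 1)) m 1 :=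
    tri_shift (fun k => x (k + 1)) m 0
  rw [h1, h2, h3, h4, h5]
  have h6 := z2_add_self (tri (fun k => x (k + 1)) m 0)
  have h7 : x (m + 1 + 1) = x (m + 2) := rfl
  rw [h7]
  linear_combination h6

theorem core (x : ℕ → ZMod 2) (N : ℕ) (c : ZMod 2)
    (hmid : ∀ i, 1 ≤ i → i < N → par x N i = c) (m : ℕ) (hm : 1 ≤ m) (hmN : m + 2 ≤ N) :
    entry x m N = x (N - m) + c := by
  set U : ℕ → ZMod 2 := fun k => x (N - k) with hU
  set Y : ℕ → ZMod 2 := fun k => x (k + 2) with hY
  have h0 : ∀ k ≤ N - 2, tri Y k 0 + tri U k 0 + Y k = c := by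
    intro k hk
    rw [← hmid (k + 1) (by omega) (by omega), par_mid x N k (by omega)]
  have h1 : tri (fun k => tri Y k 0 + tri U k 0 + Y k) m 0 = tri (fun _ => c) m 0 :=
    tri_local _ _ (N - 2) h0 m 0 (by omega)
  have h2 : tri (fun k => tri Y k 0 + tri U k 0 + Y k) m 0 = Y m + U m + tri Y m 0 := by
    rw [tri_add (fun k => tri Y k 0 + tri U k 0) Y, tri_add (fun k => tri Y k 0) (fun k => tri U k 0),
      tri_tri, tri_tri]
    rfl
  obtain ⟨m', rfl⟩ : ∃ m', m = m' + 1 := ⟨m - 1, by omega⟩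
  rw [h2, tri_const] at h1
  have h3 : entry x (m' + 1) N = tri U (m' + 1) 0 := entry_right x N (m' + 1) 0
  have h4 := h0 (m' + 1) (by omega)
  have h5 : x (N - (m' + 1)) = U (m' + 1) := rfl
  rw [h3, h5]
  have h6 := z2_add_self (Y (m' + 1))
  have h7 := z2_add_self (tri Y (m' + 1) 0)
  have h8 := z2_add_self (U (m' + 1))
  linear_combination h4 + h1 - h6 - h7 - h8

theorem core_all (x : ℕ → ZMod 2) (N : ℕ) (c : ZMod 2) (hc : (N : ZMod 2) * c = c)
    (hall : ∀ i ≤ N, par x N i = c) (m : ℕ) (hm : 1 ≤ m) (hmN : m < N) :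
    entry x m N = x (N - m) + c := by
  by_cases hlt : m + 2 ≤ N
  · exact core x N c (fun i _ h2 => hall i (by omega)) m hm hlt
  have hN : N = m + 1 := by omega
  subst hN
  have htop : ∑ j ∈ range (m + 1), x (m + 1 - j) = c := by
    have := hall 0 (by omega)
    unfold par at this
    simp only [range_zero, sum_empty, zero_add] at this
    rw [← this]
    apply Finset.sum_bij' (fun j _ => m + 1 - j) (fun j _ => m + 1 - j)
    · intro j hj; simp only [mem_range] at hj; simp only [mem_Ioc]; omega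
    · intro j hj; simp only [mem_Ioc] at hj; simp only [mem_range]; omega
    · intro j hj; simp only [mem_range] at hj; omega
    · intro j hj; simp only [mem_Ioc] at hj; omega
    · intro j hj; rfl
  have hlast : ∑ j ∈ range (m + 1), entry x j (m + 1) = c := by
    have := hall (m + 1) le_rfl
    unfold par at this
    simpa using this
  have hsum : ∑ j ∈ range (m + 1), (entry x j (m + 1) + x (m + 1 - j)) = 0 := by
    rw [sum_add_distrib, htop, hlast, z2_add_self]
  obtain ⟨m', rfl⟩ : ∃ m', m = m' + 1 := ⟨m - 1, by omega⟩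
  rw [sum_range_succ, Finset.sum_range_succ'] at hsum
  have h0 : entry x 0 (m' + 1 + 1) + x (m' + 1 + 1 - 0) = 0 := z2_add_self _
  have h1 : ∑ k ∈ range m', (entry x (k + 1) (m' + 1 + 1) + x (m' + 1 + 1 - (k + 1))) =
      ∑ k ∈ range m', c := by
    refine sum_congr rfl fun k hk => ?_
    rw [mem_range] at hk
    rw [core x (m' + 1 + 1) c (fun i _ h2 => hall i (by omega)) (k + 1) (by omega) (by omega)]
    have := z2_add_self (x (m' + 1 + 1 - (k + 1)))
    linear_combination this
  rw [h0, h1, sum_const, card_range, nsmul_eq_mul] at hsum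
  have h2 : ((m' + 1 + 1 : ℕ) : ZMod 2) = (m' : ZMod 2) := by
    push_cast
    have : (1 : ZMod 2) + 1 = 0 := by decide
    linear_combination this
  rw [h2] at hc
  rw [hc] at hsum
  have h3 := z2_add_self (x (m' + 1 + 1 - (m' + 1)))
  have h4 := z2_add_self c
  linear_combination hsum - h3 - h4

end Pool.Agent.H61.Stein
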