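import Pool.Agent.H61.Stein.Core

/-! Degrees, reversal of odd Steinhaus graphs, collisions. -/

namespace Pool.Agent.H61.Stein

open Finset

/-- the symmetric Steinhaus matrix. -/
def mt (x : ℕ → ZMod 2) (i j : ℕ) : ZMod 2 :=
  if i < j then entry x i j else if j < i then entry x j i else 0

/-- degree of vertex `i`. -/
def dg (x : ℕ → ZMod 2) (N i : ℕ) : ℕ := ∑ j ∈ range (N + 1), (mt x i j).val

theorem sum_split {M : Type*} [AddCommMonoid M] (f : ℕ → M) (N i : ℕ) (h : i ≤ N) :
    ∑ j ∈ range (N + 1), f j = ∑ j ∈ range i, f j + f i + ∑ j ∈ Ioc i N, f j := by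
  have hI : Ico (i + 1) (N + 1) = Ioc i N := by
    ext j; simp only [mem_Ico, mem_Ioc]; omega
  rw [← sum_range_succ, range_eq_Ico, range_eq_Ico,
    ← Finset.sum_Ico_consecutive f (Nat.zero_le (i + 1)) (by omega : i + 1 ≤ N + 1), hI]

theorem dg_cast (x : ℕ → ZMod 2) (N i : ℕ) (h : i ≤ N) : (dg x N i : ZMod 2) = par x N i := by
  unfold dg par
  rw [Nat.cast_sum]
  simp only [ZMod.natCast_val, ZMod.cast_id', id]
  rw [sum_split _ N i h]
  have h1 : ∑ j ∈ range i, mt x i j = ∑ j ∈ range i, entry x j i := by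
    refine sum_congr rfl fun j hj => ?_
    rw [mem_range] at hj
    unfold mt
    rw [if_neg (by omega), if_pos hj]
  have h2 : ∑ j ∈ Ioc i N, mt x i j = ∑ j ∈ Ioc i N, entry x i j := by
    refine sum_congr rfl fun j hj => ?_
    rw [mem_Ioc] at hj
    unfold mt
    rw [if_pos hj.1]
  have h3 : mt x i i = 0 := by simp [mt]
  rw [h1, h2, h3, add_zero]

theorem dg_even (x : ℕ → ZMod 2) (N i : ℕ) (h : i ≤ N) : Even (dg x N i) ↔ par x N i = 0 := by
  rw [← dg_cast x N i h, ZMod.natCast_eq_zero_iff_even]

theorem dg_odd (x : ℕ → ZMod 2) (N i : ℕ) (h : i ≤ N) : Odd (dg x N i) ↔ par x N i = 1 := by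
  rw [← dg_cast x N i h, ZMod.natCast_eq_one_iff_odd]

theorem mt_comm (x : ℕ → ZMod 2) (i j : ℕ) : mt x i j = mt x j i := by
  unfold mt
  rcases lt_trichotomy i j with h | h | h
  · rw [if_pos h, if_neg (by omega), if_pos h]
  · subst h; rfl
  · rw [if_neg (by omega), if_pos h, if_pos h]

theorem par_add (x y : ℕ → ZMod 2) (N i : ℕ) :
    par (fun k => x k + y k) N i = par x N i + par y N i := by
  unfold par
  simp only [entry_add, sum_add_distrib]
  ring

/-- toggling two entries of a row. -/
theorem toggle_two (A A' : ℕ → ZMod 2) (N : ℕ) (hN : 1 ≤ N)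
    (h : ∀ j ≤ N, A' j = A j + (if j = 0 ∨ j = N then 1 else 0)) :
    ∑ j ∈ range (N + 1), (A' j).val + 2 * (A 0).val + 2 * (A N).val =
      ∑ j ∈ range (N + 1), (A j).val + 2 := by
  obtain ⟨M, rfl⟩ : ∃ M, N = M + 1 := ⟨N - 1, by omega⟩
  rw [sum_range_succ, sum_range_succ', sum_range_succ (fun j => (A j).val), sum_range_succ']
  have h1 : ∑ k ∈ range M, (A' (k + 1)).val = ∑ k ∈ range M, (A (k + 1)).val := by
    refine sum_congr rfl fun k hk => ?_
    rw [mem_range] at hk
    rw [h (k + 1) (by omega), if_neg (by omega), add_zero]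
  have h2 := h 0 (by omega)
  have h3 := h (M + 1) le_rfl
  rw [if_pos (Or.inl rfl)] at h2
  rw [if_pos (Or.inr rfl)] at h3
  rw [h1, h2, h3]
  have key : ∀ a : ZMod 2, (a + 1).val + a.val = 1 := by decide
  have k1 := key (A 0)
  have k2 := key (A (M + 1))
  omega

/-- toggling the middle entries of a row. -/
theorem toggle_mid (A A' : ℕ → ZMod 2) (N : ℕ)
    (h : ∀ j ≤ N, A' j = A j + (if 1 ≤ j ∧ j < N then 1 else 0)) :
    ∑ j ∈ range (N + 1), (A' j).val + 2 * ∑ j ∈ range (N - 1), (A (j + 1)).val =
      ∑ j ∈ range (N + 1), (A j).val + (N - 1) := by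
  rcases Nat.eq_zero_or_pos N with h0 | h0
  · subst h0
    have := h 0 le_rfl
    simp at this
    simp [this]
  obtain ⟨M, rfl⟩ : ∃ M, N = M + 1 := ⟨N - 1, by omega⟩
  rw [sum_range_succ, sum_range_succ', sum_range_succ (fun j => (A j).val), sum_range_succ']
  have h2 := h 0 (by omega)
  have h3 := h (M + 1) le_rfl
  rw [if_neg (by omega), add_zero] at h2 h3
  rw [h2, h3]
  have key : ∀ a : ZMod 2, (a + 1).val + 2 * a.val = a.val + 1 := by decide
  have h1 : ∑ k ∈ range M, (A' (k + 1)).val + 2 * ∑ k ∈ range M, (A (k + 1)).val =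
      ∑ k ∈ range M, (A (k + 1)).val + M := by
    rw [mul_sum, ← sum_add_distrib]
    have : ∑ k ∈ range M, ((A' (k + 1)).val + 2 * (A (k + 1)).val) =
        ∑ k ∈ range M, ((A (k + 1)).val + 1) := by
      refine sum_congr rfl fun k hk => ?_
      rw [mem_range] at hk
      rw [h (k + 1) (by omega), if_pos (by omega)]
      exact key _
    rw [this, sum_add_distrib]
    simp
  have hM : M + 1 - 1 = M := by omega
  rw [hM]
  omega

/-- reversal of a Steinhaus matrix whose last column is `1 +` the reversed first row. -/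
theorem revE (x : ℕ → ZMod 2) (N : ℕ) (hN : 2 ≤ N)
    (hv : ∀ m, 1 ≤ m → m < N → entry x m N = x (N - m) + 1) (p : ℕ) :
    ∀ q, p < q → q ≤ N → entry x p q + entry x (N - q) (N - p) =
      if (p = 0 ∧ q < N) ∨ (p ≠ 0 ∧ q = N) then 1 else 0 := by
  induction p with
  | zero =>
    intro q hq hqN
    show x q + entry x (N - q) (N - 0) = _
    rw [Nat.sub_zero]
    by_cases h : q = N
    · subst h
      rw [if_neg (by omega), Nat.sub_self]
      exact z2_add_self _
    · rw [hv (N - q) (by omega) (by omega), if_pos (by omega)]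
      have : N - (N - q) = q := by omega
      rw [this]
      linear_combination z2_add_self (x q)
  | succ p ih =>
    intro q hq hqN
    obtain ⟨q', rfl⟩ : ∃ q', q = q' + 1 := ⟨q - 1, by omega⟩
    have e1 : entry x (p + 1) (q' + 1) = entry x p q' + entry x p (q' + 1) := rfl
    have e2 : entry x (N - q') (N - p) =
        entry x (N - (q' + 1)) (N - (p + 1)) + entry x (N - (q' + 1)) (N - p) := by
      obtain ⟨a, ha⟩ : ∃ a, N - (q' + 1) = a := ⟨_, rfl⟩
      obtain ⟨b, hb⟩ : ∃ b, N - (p + 1) = b := ⟨_, rfl⟩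
      have h1 : N - q' = a + 1 := by omega
      have h2 : N - p = b + 1 := by omega
      rw [ha, hb, h1, h2]
      rfl
    have i1 := ih q' (by omega) (by omega)
    have i2 := ih (q' + 1) (by omega) hqN
    have e3 : entry x (p + 1) (q' + 1) + entry x (N - (q' + 1)) (N - (p + 1)) =
        (entry x p q' + entry x (N - q') (N - p)) +
          (entry x p (q' + 1) + entry x (N - (q' + 1)) (N - p)) := by
      rw [e1, e2]
      linear_combination -z2_add_self (entry x (N - (q' + 1)) (N - p))
    rw [e3, i1, i2]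
    by_cases hp : p = 0
    · by_cases hq2 : q' + 1 = N
      · rw [if_pos (by omega), if_neg (by omega), if_pos (by omega)]; rfl
      · rw [if_pos (by omega), if_pos (by omega), if_neg (by omega)]; rfl
    · by_cases hq2 : q' + 1 = N
      · rw [if_neg (by omega), if_pos (by omega), if_pos (by omega)]; rfl
      · rw [if_neg (by omega), if_neg (by omega), if_neg (by omega)]; rfl

theorem revM (x : ℕ → ZMod 2) (N : ℕ) (hN : 2 ≤ N)
    (hv : ∀ m, 1 ≤ m → m < N → entry x m N = x (N - m) + 1) (i j : ℕ) (hi : 1 ≤ i) (hiN : i < N)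
    (hj : j ≤ N) :
    mt x (N - i) (N - j) = mt x i j + (if j = 0 ∨ j = N then 1 else 0) := by
  unfold mt
  rcases lt_trichotomy i j with h | h | h
  · have := revE x N hN hv i j h hj
    rw [if_neg (by omega), if_pos (by omega), if_pos h]
    have h2 := z2_add_self (entry x i j)
    by_cases hjN : j = N
    · rw [if_pos (by omega)] at this ⊢
      linear_combination this - h2
    · rw [if_neg (by omega)] at this ⊢
      linear_combination this - h2
  · subst h
    rw [if_neg (by omega), if_neg (by omega), if_neg (by omega), if_neg (by omega),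
      if_neg (by omega), add_zero]
  · have := revE x N hN hv j i h (by omega)
    rw [if_pos (by omega), if_neg (by omega), if_pos h]
    have h2 := z2_add_self (entry x j i)
    by_cases hjN : j = 0
    · rw [if_pos (by omega)] at this ⊢
      linear_combination this - h2
    · rw [if_neg (by omega)] at this ⊢
      linear_combination this - h2

/-- In the odd class the degree sequence sees the defect of symmetry of the first row. -/
theorem dg_diff (x : ℕ → ZMod 2) (N : ℕ) (hN : 2 ≤ N)
    (hv : ∀ m, 1 ≤ m → m < N → entry x m N = x (N - m) + 1) (i : ℕ) (hi : 1 ≤ i) (hiN : i < N) :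
    dg x N (N - i) + 2 * (x i).val = dg x N i + 2 * (x (N - i)).val := by
  have h1 : dg x N (N - i) = ∑ j ∈ range (N + 1), (mt x (N - i) (N - j)).val := by
    unfold dg
    exact (Finset.sum_flip (fun j => (mt x (N - i) j).val)).symm
  have h2 := toggle_two (fun j => mt x i j) (fun j => mt x (N - i) (N - j)) N (by omega)
    (fun j hj => revM x N hN hv i j hi hiN hj)
  rw [← h1] at h2
  have h3 : mt x i 0 = x i := by
    unfold mt; rw [if_neg (by omega), if_pos (by omega)]; rfl
  have h4 : mt x i N = x (N - i) + 1 := by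
    unfold mt; rw [if_pos hiN]; exact hv i hi hiN
  rw [h3, h4] at h2
  have key : ∀ a : ZMod 2, (a + 1).val + a.val = 1 := by decide
  have k1 := key (x (N - i))
  have h5 : dg x N i = ∑ j ∈ range (N + 1), (mt x i j).val := rfl
  rw [← h5] at h2
  omega

end Pool.Agent.H61.Stein
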