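import Pool.Agent.H61.Stein.Unit

/-! Exact description of the collisions with sum `1'`. -/

namespace Pool.Agent.H61.Stein

open Finset

/-- rows of a Steinhaus triangle with palindromic top row are palindromic. -/
theorem row_palin (x : ℕ → ZMod 2) (N : ℕ) (h : ∀ j ≤ N, x j = x (N - j)) (i : ℕ) :
    ∀ j, i ≤ j → j ≤ N → entry x i j = entry x i (N + i - j) := by
  induction i with
  | zero => intro j _ hj; exact h j hj
  | succ i ih =>
    intro j hj hjN
    obtain ⟨j', rfl⟩ : ∃ j', j = j' + 1 := ⟨j - 1, by omega⟩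
    obtain ⟨k, hk⟩ : ∃ k, N + (i + 1) - (j' + 1) = k + 1 := ⟨N + i - (j' + 1), by omega⟩
    rw [hk, entry_succ, entry_succ, ih j' (by omega) (by omega), ih (j' + 1) (by omega) hjN]
    have e1 : N + i - j' = k + 1 := by omega
    have e2 : N + i - (j' + 1) = k := by omega
    rw [e1, e2]
    ring

/-- `x` palindromic on `[0,N]`, vanishing at the ends, last column equal to the first row:
all middle vertices have even degree. -/
theorem par_sym (x : ℕ → ZMod 2) (N : ℕ) (hp : ∀ j ≤ N, x j = x (N - j)) (h0 : x 0 = 0)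
    (hv : ∀ i, 1 ≤ i → i < N → entry x i N = x i) (k : ℕ) (hk : k + 1 < N) :
    par x N (k + 1) = 0 := by
  have hN : x N = 0 := by rw [hp N le_rfl, Nat.sub_self, h0]
  have hU : ∀ i < N, tri x i 0 = x i := by
    intro i hi
    have e1 : tri x i 0 = tri (fun k => x (N - k)) i 0 :=
      tri_local x (fun k => x (N - k)) N hp i 0 (by omega)
    have e2 : entry x i N = tri (fun k => x (N - k)) i 0 := entry_right x N i 0
    rw [e1, ← e2]
    rcases Nat.eq_zero_or_pos i with h | h
    · subst h
      show x N = x 0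
      rw [hN, h0]
    · exact hv i h hi
  have hNN : tri x N 0 = 0 := by
    have e1 : tri x N 0 = tri (fun k => x (N - k)) N 0 :=
      tri_local x (fun k => x (N - k)) N hp N 0 (by omega)
    have e2 : entry x N N = tri (fun k => x (N - k)) N 0 := entry_right x N N 0
    rw [e1, ← e2]
    obtain ⟨M, rfl⟩ : ∃ M, N = M + 1 := ⟨N - 1, by omega⟩
    rw [entry_succ, row_palin x (M + 1) hp M M le_rfl (by omega)]
    have : M + 1 + M - M = M + 1 := by omega
    rw [this]
    exact z2_add_self _
  have hall : ∀ i ≤ N, tri x i 0 = x i := by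
    intro i hi
    rcases Nat.lt_or_ge i N with h | h
    · exact hU i h
    · have : i = N := by omega
      rw [this, hNN, hN]
  rw [par_mid x N k hk]
  have t1 : tri (fun k => x (k + 2)) k 0 = tri x k 2 := by
    have a1 := tri_shift (fun k => x (k + 1)) k 0
    have a2 := tri_shift x k 1
    exact a1.trans a2
  have t2 : tri x (k + 2) 0 = (tri x k 0 + tri x k 1) + (tri x k 1 + tri x k 2) := rfl
  have t3 := hall (k + 2) (by omega)
  have t4 := hall k (by omega)
  have t5 : tri (fun k => x (N - k)) k 0 = x k := by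
    rw [← t4]
    exact (tri_local x (fun k => x (N - k)) N hp k 0 (by omega)).symm
  rw [t1, t5]
  have b1 := z2_add_self (tri x k 1)
  have b3 := z2_add_self (x (k + 2))
  linear_combination (-1 : ZMod 2) * t2 + t3 - t4 - b1 + b3

theorem entry_star {m : ℕ} (p : ℕ) : ∀ q, p < q → q ≤ m →
    entry (ext (1 : Fin m → ZMod 2)) p q = if p = 0 then 1 else 0 := by
  induction p with
  | zero =>
    intro q hq hqm
    show ext (1 : Fin m → ZMod 2) q = _
    rw [ext_one, if_pos (by omega)]; rfl
  | succ p ih =>
    intro q hq hqm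
    obtain ⟨q', rfl⟩ : ∃ q', q = q' + 1 := ⟨q - 1, by omega⟩
    rw [entry_succ, ih q' (by omega) (by omega), ih (q' + 1) (by omega) hqm, z2_add_self,
      if_neg (Nat.succ_ne_zero p)]

theorem par_star {m : ℕ} (hm : Odd m) (i : ℕ) (hi : i ≤ m) :
    par (ext (1 : Fin m → ZMod 2)) m i = 1 := by
  unfold par
  have h2 : ∑ j ∈ Ioc i m, entry (ext (1 : Fin m → ZMod 2)) i j =
      ∑ j ∈ Ioc i m, (if i = 0 then 1 else 0) := by
    refine sum_congr rfl fun j hj => ?_
    rw [mem_Ioc] at hj
    rw [entry_star i j hj.1 hj.2]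
  have h1 : ∑ j ∈ range i, entry (ext (1 : Fin m → ZMod 2)) j i =
      ∑ j ∈ range i, (if j = 0 then 1 else 0) := by
    refine sum_congr rfl fun j hj => ?_
    rw [mem_range] at hj
    rw [entry_star j i hj hi]
  rw [h1, h2]
  rcases Nat.eq_zero_or_pos i with h0 | h0
  · subst h0
    simp only [range_zero, sum_empty, if_true, sum_const, zero_add, Nat.card_Ioc, Nat.sub_zero,
      nsmul_eq_mul, mul_one]
    exact ZMod.natCast_eq_one_iff_odd.2 hm
  · rw [if_neg (by omega)]
    simp only [sum_const_zero, add_zero]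
    rw [Finset.sum_ite_eq' (range i) 0 (fun _ => (1 : ZMod 2)), if_pos (by simpa using h0)]

/-- The symmetric strings `T` that describe the collisions with sum `1'`. -/
structure Balanced {m : ℕ} (T : Fin m → ZMod 2) : Prop where
  two_le : 2 ≤ m
  odd : Odd m
  palin : ∀ i, 1 ≤ i → i < m → ext T i = ext T (m - i)
  last : ext T m = 0
  side : ∀ i, 1 ≤ i → i < m → entry (ext T) i m = ext T i
  wt : 2 * weight T = m - 1

theorem Balanced.palin' {m : ℕ} {T : Fin m → ZMod 2} (h : Balanced T) (j : ℕ) (hj : j ≤ m) :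
    ext T j = ext T (m - j) := by
  rcases Nat.eq_zero_or_pos j with h0 | h0
  · subst h0; rw [Nat.sub_zero, h.last, ext_zero]
  rcases Nat.lt_or_ge j m with h1 | h1
  · exact h.palin j h0 h1
  · have : j = m := by omega
    rw [this, Nat.sub_self, h.last, ext_zero]

theorem Balanced.weight_mid {m : ℕ} {T : Fin m → ZMod 2} (h : Balanced T) :
    2 * ∑ j ∈ range (m - 1), (ext T (j + 1)).val = m - 1 := by
  have := h.wt
  rw [weight_last T (by have := h.two_le; omega), h.last, ZMod.val_zero, add_zero] at this
  exact this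

theorem Balanced.sum_zero {m : ℕ} {T : Fin m → ZMod 2} (h : Balanced T) :
    ∑ j ∈ range m, ext T (j + 1) = 0 := by
  obtain ⟨M, hM⟩ := h.odd
  have e : ∑ j ∈ range m, ext T (j + 1) = ∑ j ∈ range (2 * M + 1), ext T (j + 1) := by rw [← hM]
  rw [e, sum_range_succ, pair_sum]
  have h1 : ext T (2 * M + 1) = 0 := by
    have : ext T (2 * M + 1) = ext T m := by congr 1; omega
    rw [this, h.last]
  rw [h1, add_zero]
  apply sum_eq_zero
  intro k hk
  rw [mem_range] at hk
  have := h.palin (k + 1) (by omega) (by omega)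
  have e2 : m - (k + 1) = 2 * M - 1 - k + 1 := by omega
  rw [e2] at this
  rw [← this]
  exact z2_add_self _

theorem Balanced.par_zero {m : ℕ} {T : Fin m → ZMod 2} (h : Balanced T) (i : ℕ) (hi : i ≤ m) :
    par (ext T) m i = 0 := by
  have h2 := h.two_le
  rcases Nat.eq_zero_or_pos i with h0 | h0
  · subst h0
    unfold par
    rw [range_zero, sum_empty, zero_add, ← h.sum_zero]
    show ∑ j ∈ Ioc 0 m, ext T j = _
    have e : Ioc 0 m = Ico (0 + 1) (m + 1) := by
      ext j; simp only [mem_Ico, mem_Ioc]; omega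
    rw [e, ← Finset.sum_Ico_add' (fun j => ext T j) 0 m 1, range_eq_Ico]
  rcases Nat.lt_or_ge i m with h1 | h1
  · obtain ⟨k, rfl⟩ : ∃ k, i = k + 1 := ⟨i - 1, by omega⟩
    exact par_sym (ext T) m h.palin' (ext_zero T) h.side k h1
  · have him : i = m := by omega
    subst him
    unfold par
    rw [Ioc_self, sum_empty, add_zero]
    have e : ∑ j ∈ range i, entry (ext T) j i = ∑ j ∈ range i, ext T j := by
      refine sum_congr rfl fun j hj => ?_
      rw [mem_range] at hj
      rcases Nat.eq_zero_or_pos j with h3 | h3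
      · subst h3
        show ext T i = _
        rw [h.last, ext_zero]
      · exact h.side j h3 hj
    rw [e]
    have h4 := h.sum_zero
    have h5 : ∑ j ∈ range (i + 1), ext T j = 0 := by
      rw [sum_range_succ', h4, ext_zero, add_zero]
    rw [sum_range_succ, h.last, add_zero] at h5
    exact h5

theorem Balanced.odd_deg {m : ℕ} {T : Fin m → ZMod 2} (h : Balanced T) (i : Fin (m + 1)) :
    Odd (deg (1 + T) i) := by
  have hi : (i : ℕ) ≤ m := by omega
  rw [deg_eq_dg, dg_odd _ _ _ hi, ext_add', par_add, par_star h.odd _ hi, h.par_zero _ hi,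
    add_zero]

theorem z2fun {m : ℕ} (s : Fin m → ZMod 2) : s + s = 0 := by funext i; exact z2_add_self _

theorem Balanced.collision {m : ℕ} {T : Fin m → ZMod 2} (h : Balanced T) :
    Collision (1 + T) (1 + T + oneZero m) := by
  have h2 := h.two_le
  refine ⟨?_, ?_, Or.inr h.odd_deg⟩
  · intro h1
    have h3 : oneZero m = 0 := add_eq_left.1 h1.symm
    have h4 := congrFun h3 ⟨0, by omega⟩
    unfold oneZero at h4
    rw [if_pos (by show 0 + 1 < m; omega)] at h4
    have h5 : (1 : ZMod 2) = 0 := h4
    exact absurd h5 (by decide)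
  · refine (unit_iff (1 + T) (by omega)).2 ⟨?_, ?_, ?_⟩
    · intro i hi him
      have e1 : ext (1 + T) i = 1 + ext T i := by
        rw [ext_add, ext_one, if_pos (by omega)]
      have e2 : entry (ext (1 + T)) i m = ext T i := by
        rw [ext_add', entry_add, entry_star i m him le_rfl, if_neg (by omega), zero_add]
        exact h.side i hi him
      rw [e1, e2]
      have : ∀ a : ZMod 2, (1 + a).val + a.val = 1 := by decide
      exact this _
    · have hw := h.weight_mid
      have e : ∑ j ∈ range (m - 1), (ext (1 + T) (j + 1)).val +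
          ∑ j ∈ range (m - 1), (ext T (j + 1)).val = m - 1 := by
        rw [← sum_add_distrib]
        have : ∑ j ∈ range (m - 1), ((ext (1 + T) (j + 1)).val + (ext T (j + 1)).val) =
            ∑ j ∈ range (m - 1), 1 := by
          refine sum_congr rfl fun j hj => ?_
          rw [mem_range] at hj
          rw [ext_add, ext_one, if_pos (by omega)]
          have : ∀ a : ZMod 2, (1 + a).val + a.val = 1 := by decide
          exact this _
        rw [this]; simp
      omega
    · have hw := h.weight_mid
      have e : ∑ j ∈ range (m - 1), (entry (ext (1 + T)) (j + 1) m).val =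
          ∑ j ∈ range (m - 1), (ext T (j + 1)).val := by
        refine sum_congr rfl fun j hj => ?_
        rw [mem_range] at hj
        rw [ext_add', entry_add, entry_star (j + 1) m (by omega) le_rfl, if_neg (by omega),
          zero_add, h.side (j + 1) (by omega) (by omega)]
      rw [e]; exact hw

/-- Exact description of the collisions with sum `1'`. -/
theorem unit_collision_iff {m : ℕ} (s₁ s₂ : Fin m → ZMod 2) :
    (Collision s₁ s₂ ∧ s₁ + s₂ = oneZero m) ↔
      ∃ T : Fin m → ZMod 2, Balanced T ∧ s₁ = 1 + T ∧ s₂ = 1 + T + oneZero m := by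
  constructor
  · rintro ⟨hc, hs⟩
    have hs2 : s₂ = s₁ + oneZero m := by
      rw [← hs, ← add_assoc, z2fun, zero_add]
    subst hs2
    have hm := size_ge s₁ hc.ne
    obtain ⟨ho, hm4⟩ := unit_collision s₁ hc
    obtain ⟨h1, h2, -⟩ := (unit_iff s₁ (by omega)).1 hc.deg_eq
    obtain ⟨hmo, -, -, -, -, h6⟩ := odd_collision s₁ (s₁ + oneZero m) hc.deg_eq ho
    rw [hs] at h6
    have hpal : ∀ i, 1 ≤ i → i < m → ext s₁ i = ext s₁ (m - i) := by
      intro i hi him
      apply h6 i hi him
      rw [ext_oneZero, if_pos ⟨hi, him⟩]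
    have hbit : ∀ a : ZMod 2, a.val + 2 * (1 + a).val = 2 - a.val := by decide
    have hlast : ext s₁ m = 1 := by
      have h7 := ho 0
      rw [deg_zero, weight_last s₁ (by omega)] at h7
      obtain ⟨w, hw⟩ := h7
      have hv : (ext s₁ m).val < 2 := ZMod.val_lt _
      have hv1 : (ext s₁ m).val = 1 := by omega
      have : ∀ a : ZMod 2, a.val = 1 → a = 1 := by decide
      exact this _ hv1
    refine ⟨1 + s₁, ⟨hm, hmo, ?_, ?_, ?_, ?_⟩, ?_, ?_⟩
    · intro i hi him
      rw [ext_add, ext_add, ext_one, ext_one, if_pos (by omega), if_pos (by omega), hpal i hi him]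
    · rw [ext_add, ext_one, if_pos (by omega), hlast]; decide
    · intro i hi him
      rw [ext_add', entry_add, entry_star i m him le_rfl, if_neg (by omega), zero_add,
        odd_data s₁ ho i hi him]
      show ext s₁ (m - i) + 1 = ext (1 : Fin m → ZMod 2) i + ext s₁ i
      rw [ext_one, if_pos (by omega), ← hpal i hi him, add_comm]
    · rw [weight_last _ (by omega)]
      have e0 : (ext (1 + s₁) m).val = 0 := by
        rw [ext_add, ext_one, if_pos (by omega), hlast]; rfl
      have e : ∑ j ∈ range (m - 1), (ext (1 + s₁) (j + 1)).val +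
          ∑ j ∈ range (m - 1), (ext s₁ (j + 1)).val = m - 1 := by
        rw [← sum_add_distrib]
        have : ∑ j ∈ range (m - 1), ((ext (1 + s₁) (j + 1)).val + (ext s₁ (j + 1)).val) =
            ∑ j ∈ range (m - 1), 1 := by
          refine sum_congr rfl fun j hj => ?_
          rw [mem_range] at hj
          rw [ext_add, ext_one, if_pos (by omega)]
          have : ∀ a : ZMod 2, (1 + a).val + a.val = 1 := by decide
          exact this _
        rw [this]; simp
      omega
    · rw [← add_assoc, z2fun, zero_add]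
    · rw [← add_assoc, z2fun, zero_add]
  · rintro ⟨T, hT, rfl, rfl⟩
    refine ⟨hT.collision, ?_⟩
    rw [← add_assoc, z2fun, zero_add]

end Pool.Agent.H61.Stein
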