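import Pool.Agent.H61.Stein.Desc

/-! Infinitely many collisions: `n = 24 q + 2`. -/

namespace Pool.Agent.H61.Stein

open Finset

/-- rows of the doubly periodic triangle, as binary numbers of 24 digits. -/
def rows : Fin 24 → ℕ := ![5569704, 8291068, 4309890, 6365763, 13742946, 12151507, 6676410,
  5714023, 16558164, 8584318, 12812865, 2245473, 11756241, 7001017, 14662245, 3172183, 11031804,
  16547458, 8536515, 4415778, 6476211, 13875562, 12215775, 6772528]

def cell (i j : Fin 24) : ZMod 2 := if (rows i).testBit j then 1 else 0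

set_option maxRecDepth 100000 in
theorem cell_rule : ∀ i j : Fin 24, cell (i + 1) j = cell i j + cell i (j + 1) := by decide

theorem cell_side : ∀ i : Fin 24, cell i 0 = cell 0 i := by decide

theorem cell_refl : ∀ i : Fin 24, cell 0 i = cell 0 (1 - i) := by decide

theorem cell_sum : ∑ j : Fin 24, (cell 0 j).val = 12 := by decide

/-- the periodic sequence. -/
def per (k : ℕ) : ZMod 2 := cell 0 (Fin.ofNat 24 k)

theorem ofNat_succ (k : ℕ) : Fin.ofNat 24 (k + 1) = Fin.ofNat 24 k + 1 := by
  apply Fin.ext
  simp [Fin.ofNat, Fin.val_add]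

theorem tri_per (i j : ℕ) : tri per i j = cell (Fin.ofNat 24 i) (Fin.ofNat 24 j) := by
  have := tri_unique (fun i j => cell (Fin.ofNat 24 i) (Fin.ofNat 24 j)) (fun i j => by
    show cell (Fin.ofNat 24 (i + 1)) (Fin.ofNat 24 j) = _
    rw [ofNat_succ, cell_rule, ofNat_succ]) i j
  exact this.symm

theorem per_fixed (i : ℕ) : tri per i 0 = per i := by
  rw [tri_per]
  exact cell_side _

theorem per_add (k q : ℕ) : per (24 * q + k) = per k := by
  unfold per
  congr 1
  apply Fin.ext
  simp [Fin.ofNat]

theorem per_refl (q k : ℕ) (h : k ≤ 24 * q + 1) : per k = per (24 * q + 1 - k) := by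
  unfold per
  rw [cell_refl]
  congr 1
  apply Fin.ext
  rw [Fin.sub_def]
  simp only [Fin.ofNat]
  simp only [Fin.coe_ofNat_eq_mod]
  have hk : k % 24 < 24 := Nat.mod_lt _ (by norm_num)
  omega

theorem per_weight (q : ℕ) : ∑ k ∈ range (24 * q), (per (k + 1)).val = 12 * q := by
  induction q with
  | zero => rfl
  | succ q ih =>
    have e : 24 * (q + 1) = 24 * q + 24 := by ring
    rw [e, sum_range_add, ih]
    have h1 : ∑ x ∈ range 24, (per (24 * q + x + 1)).val = ∑ x ∈ range 24, (per (x + 1)).val := by
      refine sum_congr rfl fun x _ => ?_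
      rw [add_assoc, per_add]
    have h2 : ∑ x ∈ range 24, (per (x + 1)).val = 12 := by decide
    rw [h1, h2]; ring

/-- the string `T` of length `24 q + 1`. -/
def perString (q : ℕ) : Fin (24 * q + 1) → ZMod 2 := fun i => per ((i : ℕ) + 1)

theorem ext_perString (q k : ℕ) (hk : k ≤ 24 * q + 1) : ext (perString q) k = per k := by
  unfold ext perString
  rcases Nat.eq_zero_or_pos k with h | h
  · subst h
    rw [dif_neg (by omega)]; rfl
  · rw [dif_pos ⟨h, by omega⟩]
    show per (k - 1 + 1) = per k
    congr 1; omega

theorem entry_local (x y : ℕ → ZMod 2) (N : ℕ) (h : ∀ k ≤ N, x k = y k) (i : ℕ) :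
    ∀ j ≤ N, entry x i j = entry y i j := by
  induction i with
  | zero => exact h
  | succ i ih =>
    intro j hj
    show entry x i (j - 1) + entry x i j = entry y i (j - 1) + entry y i j
    rw [ih j hj, ih (j - 1) (by omega)]

theorem perString_balanced (q : ℕ) (hq : 1 ≤ q) : Balanced (perString q) := by
  have h0 : per 0 = 0 := by decide
  have h1 : per 1 = 0 := by decide
  have hl : per (24 * q + 1) = 0 := by rw [per_add, h1]
  refine ⟨by omega, ⟨12 * q, by ring⟩, ?_, ?_, ?_, ?_⟩
  · intro i _ hi
    rw [ext_perString q i (by omega), ext_perString q _ (by omega)]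
    exact per_refl q i (by omega)
  · rw [ext_perString q _ le_rfl, hl]
  · intro i hi him
    rw [entry_local (ext (perString q)) per (24 * q + 1) (fun k hk => ext_perString q k hk) i _
      le_rfl, ext_perString q i (by omega)]
    have e := entry_right per (24 * q + 1) i 0
    rw [Nat.sub_zero] at e
    rw [e, ← tri_local per (fun k => per (24 * q + 1 - k)) (24 * q + 1)
      (fun k hk => per_refl q k hk) i 0 (by omega), per_fixed]
  · rw [weight_eq, sum_range_succ]
    have e1 : ∑ k ∈ range (24 * q), (ext (perString q) (k + 1)).val =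
        ∑ k ∈ range (24 * q), (per (k + 1)).val := by
      refine sum_congr rfl fun k hk => ?_
      rw [mem_range] at hk
      rw [ext_perString q (k + 1) (by omega)]
    rw [e1, per_weight, ext_perString q _ le_rfl, hl]
    simp
    omega

end Pool.Agent.H61.Stein
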