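import Pool.Agent.H61.Stein.Red
import Pool.Agent.H56.SP.Zero

/-! The reduction composed with the vanishing theorem. -/

namespace Pool.Agent.H61.Stein

open Polynomial in
theorem dzero : DZero := by
  intro n L ht hr hD j hj
  refine H56.SP.D_zero n L ht ?_ hD (X ^ j) (by rw [natDegree_X_pow]; exact hj)
  intro p hp
  refine Polynomial.induction_with_natDegree_le
    (fun p => L (p.reflect (2 * n + 1)) = L p) (2 * n + 1) ?_ ?_ ?_ p hp
  · rw [reflect_zero]
  · intro i c _ hi
    rw [reflect_C_mul_X_pow, revAt_le hi, ← smul_eq_C_mul, ← smul_eq_C_mul, map_smul, map_smul,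
      hr i hi]
  · intro p q _ _ h1 h2
    rw [reflect_add, map_add, map_add, h1, h2]

/-- Collisions with odd degrees and symmetric degree sequence have the sum `1'`. -/
theorem palin_sum {m : ℕ} (s₁ s₂ : Fin m → ZMod 2) (hc : Collision s₁ s₂)
    (ho : ∀ i, Odd (deg s₁ i)) (hp : SymmetricDegrees s₁) : s₁ + s₂ = oneZero m :=
  palin_collision dzero s₁ s₂ hc ho hp

/-- In the odd class a symmetric string has symmetric degrees. -/
theorem symmetricDegrees_of_ext {m : ℕ} (s : Fin m → ZMod 2) (ho : ∀ i, Odd (deg s i))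
    (hx : ∀ i, 1 ≤ i → i < m → ext s i = ext s (m - i)) : SymmetricDegrees s := by
  intro i hi him
  have h1 := dg_diff (ext s) m (by omega) (odd_data s ho) i hi him
  rw [deg_eq_dg, deg_eq_dg, Fin.val_rev]
  have h3 : m + 1 - ((i : ℕ) + 1) = m - i := by omega
  rw [h3]
  rw [hx i hi him] at h1
  omega

theorem symmetric_iff {m : ℕ} (s₁ s₂ : Fin m → ZMod 2) (hc : Collision s₁ s₂) :
    ((∀ i, Odd (deg s₁ i)) ∧ SymmetricDegrees s₁) ↔
      ((m + 1) % 4 = 2 ∧ s₁ + s₂ = oneZero m) := by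
  constructor
  · rintro ⟨ho, hp⟩
    have hs := palin_sum s₁ s₂ hc ho hp
    refine ⟨?_, hs⟩
    have hs2 : s₂ = s₁ + oneZero m := by
      rw [← hs, ← add_assoc, z2fun, zero_add]
    subst hs2
    exact (unit_collision s₁ hc).2
  · rintro ⟨-, hs⟩
    obtain ⟨T, hT, h1, -⟩ := (unit_collision_iff s₁ s₂).1 ⟨hc, hs⟩
    have ho : ∀ i, Odd (deg s₁ i) := by
      intro i; rw [h1]; exact hT.odd_deg i
    refine ⟨ho, symmetricDegrees_of_ext s₁ ho ?_⟩
    intro i hi him
    rw [h1, ext_compl T i hi (by omega), ext_compl T (m - i) (by omega) (by omega),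
      hT.palin i hi him]

end Pool.Agent.H61.Stein
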