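import Pool.Agent.H61.Stein.Deg

/-! The statement side: strings, Steinhaus graphs, degrees, collisions. -/

namespace Pool.Agent.H61.Stein

open Finset

/-- The string `s = x_1 … x_m` (here `n = m + 1`) as a sequence: `ext s i = x_i` for `1 ≤ i ≤ m`,
and `0` outside this range. -/
def ext {m : ℕ} (s : Fin m → ZMod 2) (i : ℕ) : ZMod 2 :=
  if h : 1 ≤ i ∧ i - 1 < m then s ⟨i - 1, h.2⟩ else 0

/-- The Steinhaus graph of `s` on the vertices `0, …, m`. -/
def graph {m : ℕ} (s : Fin m → ZMod 2) : SimpleGraph (Fin (m + 1)) where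
  Adj i j := (i < j ∧ entry (ext s) i j = 1) ∨ (j < i ∧ entry (ext s) j i = 1)
  symm := ⟨by
    rintro i j (h | h)
    · exact Or.inr h
    · exact Or.inl h⟩
  loopless := ⟨by
    rintro i (h | h)
    · exact absurd h.1 (lt_irrefl _)
    · exact absurd h.1 (lt_irrefl _)⟩

/-- The degree of the vertex `i` of the Steinhaus graph of `s`. -/
noncomputable def deg {m : ℕ} (s : Fin m → ZMod 2) (i : Fin (m + 1)) : ℕ :=
  ((graph s).neighborSet i).ncard

/-- All degrees even, or all degrees odd. -/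
def ParityRegular {m : ℕ} (s : Fin m → ZMod 2) : Prop :=
  (∀ i, Even (deg s i)) ∨ (∀ i, Odd (deg s i))

/-- A collision among parity-regular Steinhaus graphs. -/
structure Collision {m : ℕ} (s₁ s₂ : Fin m → ZMod 2) : Prop where
  ne : s₁ ≠ s₂
  deg_eq : ∀ i, deg s₁ i = deg s₂ i
  parity : ParityRegular s₁

/-- The string `1' = 1 1 … 1 0`. -/
def oneZero (m : ℕ) : Fin m → ZMod 2 := fun i => if (i : ℕ) + 1 < m then 1 else 0

/-- The number of ones of a string. -/
def weight {m : ℕ} (s : Fin m → ZMod 2) : ℕ := (univ.filter fun i => s i = 1).card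

theorem adj_iff {m : ℕ} (s : Fin m → ZMod 2) (i j : Fin (m + 1)) :
    (graph s).Adj i j ↔ mt (ext s) i j = 1 := by
  show ((i < j ∧ entry (ext s) i j = 1) ∨ (j < i ∧ entry (ext s) j i = 1)) ↔ _
  unfold mt
  rcases lt_trichotomy i j with h | h | h
  · rw [if_pos (by exact_mod_cast h)]
    constructor
    · rintro (h' | h')
      · exact h'.2
      · exact absurd h'.1 (not_lt.2 h.le)
    · intro h'; exact Or.inl ⟨h, h'⟩
  · subst h
    simp
  · have h1 : ¬ ((i : ℕ) < j) := by
      have : (j : ℕ) < i := by exact_mod_cast h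
      omega
    rw [if_neg h1, if_pos (by exact_mod_cast h)]
    constructor
    · rintro (h' | h')
      · exact absurd h'.1 (not_lt.2 h.le)
      · exact h'.2
    · intro h'; exact Or.inr ⟨h, h'⟩

theorem val_eq_ite (a : ZMod 2) : a.val = if a = 1 then 1 else 0 := by
  revert a; decide

theorem deg_eq_dg {m : ℕ} (s : Fin m → ZMod 2) (i : Fin (m + 1)) : deg s i = dg (ext s) m i := by
  classical
  unfold deg dg
  have h1 : (graph s).neighborSet i = ((univ.filter fun j : Fin (m + 1) =>
      mt (ext s) i j = 1 : Finset (Fin (m + 1))) : Set (Fin (m + 1))) := by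
    ext j
    rw [SimpleGraph.mem_neighborSet, adj_iff]
    simp
  rw [h1, Set.ncard_coe_finset, card_filter, Fin.sum_univ_eq_sum_range
    (fun j => if mt (ext s) i j = 1 then 1 else 0) (m + 1)]
  exact sum_congr rfl fun j _ => (val_eq_ite _).symm

theorem ext_succ {m : ℕ} (s : Fin m → ZMod 2) (i : Fin m) : ext s ((i : ℕ) + 1) = s i := by
  unfold ext
  have h : 1 ≤ (i : ℕ) + 1 ∧ (i : ℕ) + 1 - 1 < m := ⟨by omega, by omega⟩
  rw [dif_pos h]
  congr 1

theorem ext_zero {m : ℕ} (s : Fin m → ZMod 2) : ext s 0 = 0 := by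
  unfold ext
  rw [dif_neg (by omega)]

theorem ext_gt {m : ℕ} (s : Fin m → ZMod 2) (i : ℕ) (h : m < i) : ext s i = 0 := by
  unfold ext
  rw [dif_neg (by omega)]

theorem ext_add {m : ℕ} (s t : Fin m → ZMod 2) (i : ℕ) : ext (s + t) i = ext s i + ext t i := by
  unfold ext
  by_cases h : 1 ≤ i ∧ i - 1 < m
  · rw [dif_pos h, dif_pos h, dif_pos h]; rfl
  · rw [dif_neg h, dif_neg h, dif_neg h]; rfl

theorem ext_oneZero (m i : ℕ) : ext (oneZero m) i = if 1 ≤ i ∧ i < m then 1 else 0 := by
  unfold ext oneZero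
  by_cases h : 1 ≤ i ∧ i - 1 < m
  · rw [dif_pos h]
    by_cases h2 : i < m
    · rw [if_pos (by show i - 1 + 1 < m; omega), if_pos (by omega)]
    · rw [if_neg (by show ¬ (i - 1 + 1 < m); omega), if_neg (by omega)]
  · rw [dif_neg h, if_neg (by omega)]

theorem ext_one {m : ℕ} (i : ℕ) :
    ext (1 : Fin m → ZMod 2) i = if 1 ≤ i ∧ i ≤ m then 1 else 0 := by
  unfold ext
  by_cases h : 1 ≤ i ∧ i - 1 < m
  · rw [dif_pos h, if_pos (by omega)]; rfl
  · rw [dif_neg h, if_neg (by omega)]

theorem ext_injective {m : ℕ} (s t : Fin m → ZMod 2) (h : ∀ i, ext s i = ext t i) : s = t := by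
  funext i
  rw [← ext_succ s i, ← ext_succ t i, h]

theorem weight_eq {m : ℕ} (s : Fin m → ZMod 2) :
    weight s = ∑ k ∈ range m, (ext s (k + 1)).val := by
  unfold weight
  rw [card_filter, ← Fin.sum_univ_eq_sum_range (fun k => (ext s (k + 1)).val) m]
  refine sum_congr rfl fun i _ => ?_
  rw [ext_succ, val_eq_ite]

theorem even_vertices {m : ℕ} (s : Fin m → ZMod 2) (h : ∀ i, Odd (deg s i)) : Odd m := by
  classical
  have h1 := (graph s).sum_degrees_eq_twice_card_edges
  have h2 : ∀ i, (graph s).degree i = deg s i := by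
    intro i
    unfold deg
    rw [← SimpleGraph.card_neighborSet_eq_degree, Set.ncard_eq_toFinset_card', Set.toFinset_card]
  have h3 : Even (∑ i, deg s i) := by
    rw [← sum_congr rfl fun i _ => h2 i, h1]
    exact even_two_mul _
  have h4 : Even (∑ i : Fin (m + 1), (deg s i + 1)) := by
    apply Finset.even_sum
    intro i _
    exact (h i).add_one
  rw [sum_add_distrib] at h4
  have h5 : Even (∑ _i : Fin (m + 1), 1) := by
    rcases Nat.even_add.1 h4 with h6
    exact h6.1 h3
  simp at h5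
  rcases Nat.even_or_odd m with h6 | h6
  · exact absurd h5 (by
      intro h7
      have := Nat.even_add.1 h7
      simp [h6] at this)
  · exact h6

end Pool.Agent.H61.Stein
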