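import Pool.Agent.H61.Stein.Graph

/-! Structure of the collisions with odd degrees. -/

namespace Pool.Agent.H61.Stein

open Finset

theorem par_of_even {m : ℕ} (s : Fin m → ZMod 2) (h : ∀ i, Even (deg s i)) (i : ℕ) (hi : i ≤ m) :
    par (ext s) m i = 0 := by
  have := h ⟨i, by omega⟩
  rw [deg_eq_dg, dg_even _ _ _ (by exact hi)] at this
  exact this

theorem par_of_odd {m : ℕ} (s : Fin m → ZMod 2) (h : ∀ i, Odd (deg s i)) (i : ℕ) (hi : i ≤ m) :
    par (ext s) m i = 1 := by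
  have := h ⟨i, by omega⟩
  rw [deg_eq_dg, dg_odd _ _ _ (by exact hi)] at this
  exact this

theorem even_data {m : ℕ} (s : Fin m → ZMod 2) (h : ∀ i, Even (deg s i)) (k : ℕ) (hk : 1 ≤ k)
    (hkm : k < m) : entry (ext s) k m = ext s (m - k) := by
  have := core_all (ext s) m 0 (by simp) (fun i hi => par_of_even s h i hi) k hk hkm
  rw [this, add_zero]

theorem odd_data {m : ℕ} (s : Fin m → ZMod 2) (h : ∀ i, Odd (deg s i)) (k : ℕ) (hk : 1 ≤ k)
    (hkm : k < m) : entry (ext s) k m = ext s (m - k) + 1 := by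
  have hm := even_vertices s h
  have hc : (m : ZMod 2) * 1 = 1 := by
    rw [mul_one]; exact ZMod.natCast_eq_one_iff_odd.2 hm
  exact core_all (ext s) m 1 hc (fun i hi => par_of_odd s h i hi) k hk hkm

theorem deg_zero {m : ℕ} (s : Fin m → ZMod 2) : deg s 0 = weight s := by
  rw [deg_eq_dg, weight_eq]
  unfold dg
  rw [sum_range_succ']
  have h0 : mt (ext s) ((0 : Fin (m + 1)) : ℕ) 0 = 0 := by simp [mt]
  rw [h0]
  simp only [ZMod.val_zero, add_zero]
  refine sum_congr rfl fun k _ => ?_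
  congr 1

theorem pair_sum {M : Type*} [AddCommMonoid M] (f : ℕ → M) (k : ℕ) :
    ∑ j ∈ range (2 * k), f j = ∑ j ∈ range k, (f j + f (2 * k - 1 - j)) := by
  rw [two_mul, sum_range_add, sum_add_distrib]
  congr 1
  rw [← Finset.sum_range_reflect]
  refine sum_congr rfl fun j hj => ?_
  rw [mem_range] at hj
  congr 1
  omega

theorem weight_pairs {m : ℕ} (s : Fin m → ZMod 2) (M : ℕ) (hM : m = 2 * M + 1) :
    weight s = ∑ k ∈ range M, ((ext s (k + 1)).val + (ext s (2 * M - 1 - k + 1)).val) +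
      (ext s (2 * M + 1)).val := by
  subst hM
  rw [weight_eq, sum_range_succ, pair_sum]

theorem odd_sym {m : ℕ} (s₁ s₂ : Fin m → ZMod 2) (hd : ∀ i, deg s₁ i = deg s₂ i)
    (hodd : ∀ i, Odd (deg s₁ i)) (i : ℕ) (hi : 1 ≤ i) (him : i < m) :
    (ext s₁ i).val + (ext s₂ (m - i)).val = (ext s₂ i).val + (ext s₁ (m - i)).val := by
  have hodd2 : ∀ i, Odd (deg s₂ i) := fun i => hd i ▸ hodd i
  have h1 := dg_diff (ext s₁) m (by omega) (odd_data s₁ hodd) i hi him
  have h2 := dg_diff (ext s₂) m (by omega) (odd_data s₂ hodd2) i hi him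
  have h3 := hd ⟨i, by omega⟩
  have h4 := hd ⟨m - i, by omega⟩
  rw [deg_eq_dg, deg_eq_dg] at h3 h4
  simp only at h3 h4
  omega

theorem bits (a b c d : ZMod 2) (h : a.val + d.val = b.val + c.val) :
    a + b = c + d ∧ (a + b = 1 → a = c) := by
  revert a b c d; decide

/-- Collisions with all degrees odd. -/
theorem odd_collision {m : ℕ} (s₁ s₂ : Fin m → ZMod 2) (hd : ∀ i, deg s₁ i = deg s₂ i)
    (hodd : ∀ i, Odd (deg s₁ i)) :
    Odd m ∧
    (∀ i, 1 ≤ i → i < m → ext (s₁ + s₂) i = ext (s₁ + s₂) (m - i)) ∧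
    ext (s₁ + s₂) m = 0 ∧
    4 ∣ weight (s₁ + s₂) ∧
    (∀ i, i < m → entry (ext (s₁ + s₂)) i m = ext (s₁ + s₂) i) ∧
    (∀ i, 1 ≤ i → i < m → ext (s₁ + s₂) i = 1 → ext s₁ i = ext s₁ (m - i)) := by
  have hm := even_vertices s₁ hodd
  have hodd2 : ∀ i, Odd (deg s₂ i) := fun i => hd i ▸ hodd i
  have hsym : ∀ i, 1 ≤ i → i < m → ext (s₁ + s₂) i = ext (s₁ + s₂) (m - i) := by
    intro i hi him
    rw [ext_add, ext_add]
    exact (bits _ _ _ _ (odd_sym s₁ s₂ hd hodd i hi him)).1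
  have hw : weight s₁ = weight s₂ := by
    rw [← deg_zero, ← deg_zero]; exact hd 0
  obtain ⟨M, hM⟩ := hm
  have hw' := hw
  rw [weight_pairs s₁ M hM, weight_pairs s₂ M hM] at hw'
  have hpair : ∀ k, k < M → (ext s₁ (k + 1)).val + (ext s₂ (2 * M - 1 - k + 1)).val =
      (ext s₂ (k + 1)).val + (ext s₁ (2 * M - 1 - k + 1)).val := by
    intro k hk
    have := odd_sym s₁ s₂ hd hodd (k + 1) (by omega) (by omega)
    have e : m - (k + 1) = 2 * M - 1 - k + 1 := by omega
    rw [e] at this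
    exact this
  have hsum : ∑ k ∈ range M, ((ext s₁ (k + 1)).val + (ext s₁ (2 * M - 1 - k + 1)).val) +
      2 * ∑ k ∈ range M, (ext s₂ (k + 1)).val =
      ∑ k ∈ range M, ((ext s₂ (k + 1)).val + (ext s₂ (2 * M - 1 - k + 1)).val) +
      2 * ∑ k ∈ range M, (ext s₁ (k + 1)).val := by
    rw [mul_sum, mul_sum, ← sum_add_distrib, ← sum_add_distrib]
    refine sum_congr rfl fun k hk => ?_
    rw [mem_range] at hk
    have := hpair k hk
    omega
  have hv1 : (ext s₁ (2 * M + 1)).val < 2 := ZMod.val_lt _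
  have hv2 : (ext s₂ (2 * M + 1)).val < 2 := ZMod.val_lt _
  have hlast : (ext s₁ (2 * M + 1)).val = (ext s₂ (2 * M + 1)).val := by omega
  have hhalf : ∑ k ∈ range M, (ext s₁ (k + 1)).val = ∑ k ∈ range M, (ext s₂ (k + 1)).val := by
    omega
  have hmz : ext (s₁ + s₂) m = 0 := by
    have e1 : ext s₁ m = ext s₁ (2 * M + 1) := by congr 1
    have e2 : ext s₂ m = ext s₂ (2 * M + 1) := by congr 1
    rw [ext_add, e1, e2, ZMod.val_injective 2 hlast]
    exact z2_add_self _
  refine ⟨⟨M, hM⟩, hsym, hmz, ?_, ?_, ?_⟩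
  · rw [weight_pairs (s₁ + s₂) M hM]
    have h1 : ext (s₁ + s₂) (2 * M + 1) = 0 := by
      have e1 : ext (s₁ + s₂) m = ext (s₁ + s₂) (2 * M + 1) := by congr 1
      rw [← e1]; exact hmz
    rw [h1, ZMod.val_zero, add_zero]
    have h2 : ∑ k ∈ range M, ((ext (s₁ + s₂) (k + 1)).val +
        (ext (s₁ + s₂) (2 * M - 1 - k + 1)).val) =
        2 * ∑ k ∈ range M, (ext (s₁ + s₂) (k + 1)).val := by
      rw [mul_sum]
      refine sum_congr rfl fun k hk => ?_
      rw [mem_range] at hk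
      have := hsym (k + 1) (by omega) (by omega)
      have e : m - (k + 1) = 2 * M - 1 - k + 1 := by omega
      rw [e] at this
      rw [← this]; ring
    rw [h2]
    have h3 : ∑ k ∈ range M, (ext (s₁ + s₂) (k + 1)).val +
        2 * ∑ k ∈ range M, ((ext s₁ (k + 1)).val * (ext s₂ (k + 1)).val) =
        ∑ k ∈ range M, (ext s₁ (k + 1)).val + ∑ k ∈ range M, (ext s₂ (k + 1)).val := by
      rw [mul_sum, ← sum_add_distrib, ← sum_add_distrib]
      refine sum_congr rfl fun k _ => ?_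
      rw [ext_add]
      have key : ∀ a b : ZMod 2, (a + b).val + 2 * (a.val * b.val) = a.val + b.val := by decide
      exact key _ _
    omega
  · intro i him
    rcases Nat.eq_zero_or_pos i with h0 | h0
    · subst h0
      show ext (s₁ + s₂) m = _
      rw [hmz, ext_zero]
    · have e : ext (s₁ + s₂) = fun k => ext s₁ k + ext s₂ k := by
        funext k; exact ext_add s₁ s₂ k
      rw [hsym i h0 him, e, entry_add, odd_data s₁ hodd i h0 him, odd_data s₂ hodd2 i h0 him]
      have : (1 : ZMod 2) + 1 = 0 := by decide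
      linear_combination this
  · intro i hi him h
    rw [ext_add] at h
    exact (bits _ _ _ _ (odd_sym s₁ s₂ hd hodd i hi him)).2 h

end Pool.Agent.H61.Stein
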