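import Pool.Agent.H61.Stein.Fam

/-! Graphs with odd degrees and symmetric degree sequence: the conditions modulo 4. -/

namespace Pool.Agent.H61.Stein

open Finset

theorem entry_tri (x : ℕ → ZMod 2) (i k : ℕ) : entry x i (i + k) = tri x i k := by
  induction i generalizing k with
  | zero => rw [Nat.zero_add]; rfl
  | succ i ih =>
    have h1 : i + 1 + k - 1 = i + k := by omega
    have h2 : i + 1 + k = i + (k + 1) := by omega
    show entry x i (i + 1 + k - 1) + entry x i (i + 1 + k) = _
    rw [h1, ih, h2, ih]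
    rfl

/-- sequences with a Steinhaus triangle symmetric under the group of the triangle. -/
structure Sym3 (e : ℕ → ZMod 2) (N : ℕ) : Prop where
  palin : ∀ j ≤ N, e j = e (N - j)
  zero : e 0 = 0
  side : ∀ i, 1 ≤ i → i < N → entry e i N = e i

theorem Sym3.tri0 {e : ℕ → ZMod 2} {N : ℕ} (h : Sym3 e N) : ∀ i ≤ N, tri e i 0 = e i := by
  have hN : e N = 0 := by rw [h.palin N le_rfl, Nat.sub_self, h.zero]
  have hU : ∀ i < N, tri e i 0 = e i := by
    intro i hi
    have e1 : tri e i 0 = tri (fun k => e (N - k)) i 0 :=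
      tri_local e (fun k => e (N - k)) N h.palin i 0 (by omega)
    have e2 : entry e i N = tri (fun k => e (N - k)) i 0 := entry_right e N i 0
    rw [e1, ← e2]
    rcases Nat.eq_zero_or_pos i with h0 | h0
    · subst h0
      show e N = e 0
      rw [hN, h.zero]
    · exact h.side i h0 hi
  have hNN : tri e N 0 = 0 := by
    rcases Nat.eq_zero_or_pos N with h0 | h0
    · subst h0; exact h.zero
    have e1 : tri e N 0 = tri (fun k => e (N - k)) N 0 :=
      tri_local e (fun k => e (N - k)) N h.palin N 0 (by omega)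
    have e2 : entry e N N = tri (fun k => e (N - k)) N 0 := entry_right e N N 0
    rw [e1, ← e2]
    obtain ⟨M, rfl⟩ : ∃ M, N = M + 1 := ⟨N - 1, by omega⟩
    rw [entry_succ, row_palin e (M + 1) h.palin M M le_rfl (by omega)]
    have : M + 1 + M - M = M + 1 := by omega
    rw [this]
    exact z2_add_self _
  intro i hi
  rcases Nat.lt_or_ge i N with h1 | h1
  · exact hU i h1
  · have : i = N := by omega
    rw [this, hNN, hN]

theorem Sym3.swap {e : ℕ → ZMod 2} {N : ℕ} (h : Sym3 e N) (i j : ℕ) (hij : i + j ≤ N) :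
    tri e i j = tri e j i := by
  rw [← tri_tri e i j]
  exact tri_local _ _ N (fun k hk => (h.tri0 k hk).symm) i j hij

theorem Sym3.rev {e : ℕ → ZMod 2} {N : ℕ} (h : Sym3 e N) (i j : ℕ) (hij : i + j ≤ N) :
    tri e i j = tri e i (N - i - j) := by
  have h1 := row_palin e N h.palin i (i + j) (by omega) hij
  have h2 : N + i - (i + j) = i + (N - i - j) := by omega
  rw [h2, entry_tri, entry_tri] at h1
  exact h1

theorem Sym3.diag {e : ℕ → ZMod 2} {N : ℕ} (h : Sym3 e N) (a : ℕ) (ha : 2 * a + 1 ≤ N) :
    tri e a a = 0 := by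
  have h1 : tri e (a + 1) a = tri e a a + tri e a (a + 1) := rfl
  rw [h.swap (a + 1) a (by omega)] at h1
  linear_combination -h1

theorem Sym3.mid {e : ℕ → ZMod 2} {N : ℕ} (h : Sym3 e N) (i k : ℕ) (hk : i + 1 + 2 * k = N) :
    tri e (i + 1) k = 0 := by
  have h1 : tri e (i + 1) k = tri e i k + tri e i (k + 1) := rfl
  have h2 := h.rev i k (by omega)
  have h3 : N - i - k = k + 1 := by omega
  rw [h3] at h2
  rw [h1, h2]
  exact z2_add_self _

theorem Sym3.add {e f : ℕ → ZMod 2} {N : ℕ} (h : Sym3 e N) (g : Sym3 f N) :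
    Sym3 (fun k => e k + f k) N where
  palin := fun j hj => by
    show e j + f j = e (N - j) + f (N - j)
    rw [← h.palin j hj, ← g.palin j hj]
  zero := by
    show e 0 + f 0 = 0
    rw [h.zero, g.zero, add_zero]
  side := fun i hi hiN => by
    rw [entry_add, h.side i hi hiN, g.side i hi hiN]

/-- the linear condition of the vertex `2 l + 1`. -/
def cnd (e : ℕ → ZMod 2) (K l : ℕ) : ZMod 2 := e (2 * l) + e (2 * l + 2) + tri e (2 * l) (K - l)

theorem cnd_add (e f : ℕ → ZMod 2) (K l : ℕ) :
    cnd (fun k => e k + f k) K l = cnd e K l + cnd f K l := by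
  unfold cnd
  rw [tri_add]
  ring

theorem sum_palin_odd (f : ℕ → ℕ) (k : ℕ) (h : ∀ p ≤ 2 * k, f p = f (2 * k - p)) :
    ∑ p ∈ range (2 * k + 1), f p = 2 * ∑ p ∈ range k, f p + f k := by
  have e : 2 * k + 1 = k + (k + 1) := by omega
  rw [e, sum_range_add, sum_range_succ' (fun x => f (k + x)) k]
  have h1 : ∑ q ∈ range k, f (k + (q + 1)) = ∑ q ∈ range k, f q := by
    rw [← Finset.sum_range_reflect f k]
    refine sum_congr rfl fun q hq => ?_
    rw [mem_range] at hq
    rw [h (k + (q + 1)) (by omega)]
    congr 1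
    omega
  rw [h1, Nat.add_zero]
  ring

theorem col_part (x : ℕ → ZMod 2) (i k : ℕ) :
    ∑ j ∈ range k, entry x j i = x (i + 1) + entry x k (i + 1) := by
  induction k with
  | zero => simp [entry, z2_add_self]
  | succ k ih =>
    rw [sum_range_succ, ih, entry_succ]
    ring

theorem row_part (x : ℕ → ZMod 2) (i k : ℕ) :
    ∑ p ∈ range k, tri x (i + 1) p = tri x i 0 + tri x i k := by
  induction k with
  | zero => rw [range_zero, sum_empty]; exact (z2_add_self _).symm
  | succ k ih =>
    have h : tri x (i + 1) k = tri x i k + tri x i (k + 1) := rfl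
    rw [sum_range_succ, ih, h]
    linear_combination z2_add_self (tri x i k)

theorem entry_compl {m : ℕ} (s : Fin m → ZMod 2) (p q : ℕ) (hp : 1 ≤ p) (hpq : p < q)
    (hq : q ≤ m) : entry (ext s) p q = entry (ext (1 + s)) p q := by
  rw [ext_add', entry_add, entry_star p q hpq hq, if_neg (by omega), zero_add]

theorem val_compl (a : ZMod 2) : a.val + (1 + a).val = 1 := by
  revert a; decide

theorem dg_form {m : ℕ} (s : Fin m → ZMod 2) (hs : Sym3 (ext (1 + s)) m) (K l : ℕ)
    (hm : m = 2 * K + 1) (hl : l < K) :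
    ∃ w : ℕ, dg (ext s) m (2 * l + 1) + 4 * (ext (1 + s) (2 * l + 1)).val = 1 + 2 * w ∧
      (w : ZMod 2) = cnd (ext (1 + s)) K l := by
  obtain ⟨k, hk⟩ : ∃ k, K = l + k := ⟨K - l, by omega⟩
  set x := ext s with hx
  set e := ext (1 + s) with he
  have hxe : ∀ i, 1 ≤ i → i ≤ m → (x i).val + (e i).val = 1 := by
    intro i h1 h2
    have : e i = 1 + x i := by
      rw [he, ext_add, ext_one, if_pos ⟨h1, h2⟩]
    rw [this]
    exact val_compl _
  -- the row part
  have hB : ∑ j ∈ Ioc (2 * l + 1) m, (mt x (2 * l + 1) j).val + (e (2 * l + 1)).val =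
      2 * ∑ p ∈ range k, (tri e (2 * l + 1) p).val := by
    have h1 : ∑ j ∈ Ioc (2 * l + 1) m, (mt x (2 * l + 1) j).val =
        ∑ p ∈ range (2 * k), (tri e (2 * l + 1) (p + 1)).val := by
      have hI : Ioc (2 * l + 1) m = Ico (2 * l + 2) (m + 1) := by
        ext j; simp only [mem_Ico, mem_Ioc]; omega
      rw [hI, Finset.sum_Ico_eq_sum_range]
      have e1 : m + 1 - (2 * l + 2) = 2 * k := by omega
      rw [e1]
      refine sum_congr rfl fun p hp => ?_
      rw [mem_range] at hp
      congr 1
      unfold mt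
      rw [if_pos (by omega), entry_compl s _ _ (by omega) (by omega) (by omega)]
      have e2 : 2 * l + 2 + p = 2 * l + 1 + (p + 1) := by omega
      rw [e2, entry_tri]
    have h2 : (tri e (2 * l + 1) 0).val = (e (2 * l + 1)).val := by
      rw [hs.tri0 _ (by omega)]
    have h3 := sum_palin_odd (fun p => (tri e (2 * l + 1) p).val) k (by
      intro p hp
      have := hs.rev (2 * l + 1) p (by omega)
      have e3 : m - (2 * l + 1) - p = 2 * k - p := by omega
      rw [e3] at this
      show (tri e (2 * l + 1) p).val = (tri e (2 * l + 1) (2 * k - p)).val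
      rw [← this])
    rw [sum_range_succ'] at h3
    have h4 : (tri e (2 * l + 1) k).val = 0 := by
      rw [hs.mid (2 * l) k (by omega)]; rfl
    rw [h4, h2] at h3
    rw [h1]
    exact h3
  -- the column part
  have hA : ∑ j ∈ range (2 * l + 1), (mt x (2 * l + 1) j).val + 2 * (e (2 * l + 1)).val =
      (x (2 * l + 1)).val + 2 * ∑ j ∈ range (l + 1), (entry e j (2 * l + 1)).val := by
    have h1 : ∑ j ∈ range (2 * l + 1), (mt x (2 * l + 1) j).val =
        ∑ j ∈ range (2 * l), (entry e (j + 1) (2 * l + 1)).val + (x (2 * l + 1)).val := by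
      rw [sum_range_succ']
      congr 1
      · refine sum_congr rfl fun j hj => ?_
        rw [mem_range] at hj
        congr 1
        unfold mt
        rw [if_neg (by omega), if_pos (by omega), entry_compl s _ _ (by omega) (by omega)
          (by omega)]
    have h2 : ∑ j ∈ range (2 * (l + 1)), (entry e j (2 * l + 1)).val =
        ∑ j ∈ range (2 * l), (entry e (j + 1) (2 * l + 1)).val + (e (2 * l + 1)).val +
          (e (2 * l + 1)).val := by
      have e1 : 2 * (l + 1) = 2 * l + 1 + 1 := by omega
      rw [e1, sum_range_succ, sum_range_succ']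
      have e2 : entry e (2 * l + 1) (2 * l + 1) = e (2 * l + 1) := by
        have := entry_tri e (2 * l + 1) 0
        rw [Nat.add_zero] at this
        rw [this, hs.tri0 _ (by omega)]
      rw [e2]
      rfl
    have h3 : ∑ j ∈ range (2 * (l + 1)), (entry e j (2 * l + 1)).val =
        2 * ∑ j ∈ range (l + 1), (entry e j (2 * l + 1)).val := by
      rw [pair_sum, mul_sum]
      refine sum_congr rfl fun j hj => ?_
      rw [mem_range] at hj
      have e4 : entry e j (2 * l + 1) = entry e (2 * (l + 1) - 1 - j) (2 * l + 1) := by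
        have a1 : 2 * l + 1 = j + (2 * l + 1 - j) := by omega
        have a2 : 2 * (l + 1) - 1 - j = 2 * l + 1 - j := by omega
        have a3 : entry e j (2 * l + 1) = tri e j (2 * l + 1 - j) := by
          conv_lhs => rw [a1]
          exact entry_tri e j _
        have a4 : entry e (2 * l + 1 - j) (2 * l + 1) = tri e (2 * l + 1 - j) j := by
          have : 2 * l + 1 = 2 * l + 1 - j + j := by omega
          conv_lhs => rw [this]
          have a5 : 2 * l + 1 - j + j - j = 2 * l + 1 - j := by omega
          rw [a5]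
          exact entry_tri e _ _
        rw [a2, a3, a4]
        exact hs.swap _ _ (by omega)
      rw [← e4]
      ring
    omega
  refine ⟨∑ j ∈ range (l + 1), (entry e j (2 * l + 1)).val +
    ∑ p ∈ range k, (tri e (2 * l + 1) p).val, ?_, ?_⟩
  · have h0 := hxe (2 * l + 1) (by omega) (by omega)
    have h5 : (mt x (2 * l + 1) (2 * l + 1)).val = 0 := by
      unfold mt
      rw [if_neg (by omega), if_neg (by omega)]
      rfl
    unfold dg
    rw [sum_split _ m (2 * l + 1) (by omega), h5]
    omega
  · rw [Nat.cast_add, Nat.cast_sum, Nat.cast_sum]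
    simp only [ZMod.natCast_val, ZMod.cast_id', id]
    rw [col_part, row_part]
    have h1 : entry e (l + 1) (2 * l + 1 + 1) = 0 := by
      have : 2 * l + 1 + 1 = l + 1 + (l + 1) := by omega
      rw [this, entry_tri]
      exact hs.diag (l + 1) (by omega)
    have h2 : K - l = k := by omega
    unfold cnd
    rw [h1, h2, hs.tri0 (2 * l) (by omega)]
    have h3 : 2 * l + 1 + 1 = 2 * l + 2 := by omega
    rw [h3]
    ring

end Pool.Agent.H61.Stein
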