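import Pool.Agent.H61.Stein.Pal

/-! Reduction of the collisions with symmetric degree sequence to a statement on linear
functionals on polynomials. -/

namespace Pool.Agent.H61.Stein

open Finset

theorem ext_compl {m : ℕ} (s : Fin m → ZMod 2) (i : ℕ) (h1 : 1 ≤ i) (h2 : i ≤ m) :
    ext (1 + s) i = 1 + ext s i := by
  rw [ext_add, ext_one, if_pos ⟨h1, h2⟩]

/-- `d_i = d_{m - i}` for the inner vertices `0 < i < m`. -/
def SymmetricDegrees {m : ℕ} (s : Fin m → ZMod 2) : Prop :=
  ∀ i : Fin (m + 1), 0 < (i : ℕ) → (i : ℕ) < m → deg s i = deg s (Fin.rev i)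

/-- odd degrees and symmetric degree sequence: the complemented string is symmetric. -/
theorem sym3_of_palin {m : ℕ} (s : Fin m → ZMod 2) (ho : ∀ i, Odd (deg s i))
    (hp : SymmetricDegrees s) : Sym3 (ext (1 + s)) m := by
  have hmo := even_vertices s ho
  have hx : ∀ i, 1 ≤ i → i < m → ext s i = ext s (m - i) := by
    intro i hi him
    have h1 := dg_diff (ext s) m (by omega) (odd_data s ho) i hi him
    have h2 := hp ⟨i, by omega⟩ (by exact hi) (by exact him)
    rw [deg_eq_dg, deg_eq_dg, Fin.val_rev] at h2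
    simp only at h2
    have h3 : m + 1 - (i + 1) = m - i := by omega
    rw [h3] at h2
    exact ZMod.val_injective 2 (by omega)
  obtain ⟨M, hM⟩ := hmo
  have hlast : ext s m = 1 := by
    have h7 := ho 0
    rw [deg_zero, weight_last s (by omega)] at h7
    have e1 : m - 1 = 2 * M := by omega
    rw [e1, pair_sum] at h7
    have h8 : ∑ j ∈ range M, ((ext s (j + 1)).val + (ext s (2 * M - 1 - j + 1)).val) =
        2 * ∑ j ∈ range M, (ext s (j + 1)).val := by
      rw [mul_sum]
      refine sum_congr rfl fun j hj => ?_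
      rw [mem_range] at hj
      have h9 := hx (j + 1) (by omega) (by omega)
      have e2 : m - (j + 1) = 2 * M - 1 - j + 1 := by omega
      rw [e2] at h9
      rw [← h9]
      ring
    rw [h8] at h7
    obtain ⟨w, hw⟩ := h7
    have hv : (ext s m).val < 2 := ZMod.val_lt _
    have hv1 : (ext s m).val = 1 := by omega
    have : ∀ a : ZMod 2, a.val = 1 → a = 1 := by decide
    exact this _ hv1
  have hem : ext (1 + s) m = 0 := by
    rw [ext_compl s m (by omega) le_rfl, hlast]; rfl
  refine ⟨?_, ext_zero _, ?_⟩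
  · intro j hj
    rcases Nat.eq_zero_or_pos j with h0 | h0
    · subst h0
      rw [Nat.sub_zero, hem, ext_zero]
    rcases Nat.lt_or_ge j m with h1 | h1
    · rw [ext_compl s j h0 hj, ext_compl s (m - j) (by omega) (by omega), hx j h0 h1]
    · have : j = m := by omega
      rw [this, Nat.sub_self, hem, ext_zero]
  · intro i hi him
    rw [← entry_compl s i m hi him le_rfl, odd_data s ho i hi him, ext_compl s i hi (by omega),
      hx i hi him]
    ring

theorem compl_sum {m : ℕ} (s₁ s₂ : Fin m → ZMod 2) : s₁ + s₂ = (1 + s₁) + (1 + s₂) := by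
  funext i
  show s₁ i + s₂ i = (1 + s₁ i) + (1 + s₂ i)
  have : (1 : ZMod 2) + 1 = 0 := by decide
  linear_combination -this

theorem cnd_zero {m : ℕ} (s₁ s₂ : Fin m → ZMod 2) (hd : ∀ i, deg s₁ i = deg s₂ i)
    (h1 : Sym3 (ext (1 + s₁)) m) (h2 : Sym3 (ext (1 + s₂)) m) (K : ℕ) (hm : m = 2 * K + 1)
    (l : ℕ) (hl : l < K) : cnd (ext (s₁ + s₂)) K l = 0 := by
  obtain ⟨w₁, a1, b1⟩ := dg_form s₁ h1 K l hm hl
  obtain ⟨w₂, a2, b2⟩ := dg_form s₂ h2 K l hm hl
  have h3 := hd ⟨2 * l + 1, by omega⟩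
  rw [deg_eq_dg, deg_eq_dg] at h3
  simp only at h3
  have h4 : w₁ + 2 * (ext (1 + s₂) (2 * l + 1)).val = w₂ + 2 * (ext (1 + s₁) (2 * l + 1)).val := by
    omega
  have h5 := congrArg (fun n : ℕ => (n : ZMod 2)) h4
  simp only [Nat.cast_add, Nat.cast_mul, Nat.cast_ofNat] at h5
  have h6 : (2 : ZMod 2) = 0 := by decide
  rw [h6, zero_mul, zero_mul, add_zero, add_zero, b1, b2] at h5
  rw [compl_sum, ext_add', cnd_add, h5]
  exact z2_add_self _

/-- The conditions modulo 4 in symmetric form. -/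
theorem Sym3.cond {e : ℕ → ZMod 2} {m : ℕ} (h : Sym3 e m) (K : ℕ) (hm : m = 2 * K + 1)
    (hc : ∀ l < K, cnd e K l = 0) (k : ℕ) (hk : 1 ≤ k) (hkK : k ≤ K) :
    tri e k (k + 1) = e (2 * k - 1) + e (2 * k + 1) := by
  have h1 := hc (K - k) (by omega)
  unfold cnd at h1
  have e0 : K - (K - k) = k := by omega
  rw [e0, h.swap _ _ (by omega), h.rev k (2 * (K - k)) (by omega)] at h1
  have e1 : m - k - 2 * (K - k) = k + 1 := by omega
  rw [e1, h.palin (2 * (K - k)) (by omega), h.palin (2 * (K - k) + 2) (by omega)] at h1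
  have e2 : m - 2 * (K - k) = 2 * k + 1 := by omega
  have e3 : m - (2 * (K - k) + 2) = 2 * k - 1 := by omega
  rw [e2, e3] at h1
  have h2 := z2_add_self (tri e k (k + 1))
  linear_combination h2 - h1

open Polynomial in
/-- The statement on linear functionals. -/
def DZero : Prop :=
  ∀ (n : ℕ) (L : (ZMod 2)[X] →ₗ[ZMod 2] ZMod 2),
    (∀ p : (ZMod 2)[X], p.natDegree ≤ 2 * n + 1 → L (p.comp (X + 1)) = L p) →
    (∀ j ≤ 2 * n + 1, L (X ^ (2 * n + 1 - j)) = L (X ^ j)) →
    (∀ F : (ZMod 2)[X], F.natDegree ≤ n → L (X * F.comp (X ^ 2)) = L (X * F.comp (X ^ 2 + X))) →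
    ∀ j ≤ 2 * n + 1, L (X ^ j) = 0

open Polynomial in
/-- the functional of a sequence. -/
noncomputable def fn (T : ℕ → ZMod 2) : (ZMod 2)[X] →ₗ[ZMod 2] ZMod 2 :=
  (Polynomial.basisMonomials (ZMod 2)).constr (ZMod 2) T

open Polynomial in
theorem fn_X (T : ℕ → ZMod 2) (j : ℕ) : fn T (X ^ j) = T j := by
  have h := (Polynomial.basisMonomials (ZMod 2)).constr_basis (ZMod 2) T j
  rw [Polynomial.coe_basisMonomials] at h
  rw [← monomial_one_right_eq_X_pow]
  exact h

open Polynomial in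
theorem fn_tri (T : ℕ → ZMod 2) (i : ℕ) : ∀ k, fn T (X ^ k * (X + 1) ^ i) = tri T i k := by
  induction i with
  | zero => intro k; rw [pow_zero, mul_one]; exact fn_X T k
  | succ i ih =>
    intro k
    have h : (X ^ k * (X + 1) ^ (i + 1) : (ZMod 2)[X]) =
        X ^ k * (X + 1) ^ i + X ^ (k + 1) * (X + 1) ^ i := by ring
    rw [h, map_add, ih, ih]
    rfl

open Polynomial in
/-- the shifted functional. -/
noncomputable def fs (T : ℕ → ZMod 2) : (ZMod 2)[X] →ₗ[ZMod 2] ZMod 2 :=
  (fn T).comp (LinearMap.mulLeft (ZMod 2) ((X ^ 2 + X) ^ 2))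

open Polynomial in
theorem fs_apply (T : ℕ → ZMod 2) (p : (ZMod 2)[X]) : fs T p = fn T ((X ^ 2 + X) ^ 2 * p) := rfl

open Polynomial in
theorem fs_X (T : ℕ → ZMod 2) (j : ℕ) : fs T (X ^ j) = tri T 2 (j + 2) := by
  rw [fs_apply, ← fn_tri]
  congr 1
  ring

open Polynomial in
theorem fs_X1 (T : ℕ → ZMod 2) (i : ℕ) : fs T ((X + 1) ^ i) = tri T (i + 2) 2 := by
  rw [fs_apply, ← fn_tri]
  congr 1
  ring

theorem tri_two (T : ℕ → ZMod 2) (j : ℕ) : tri T 2 j = T j + T (j + 2) := by
  have h : tri T 2 j = (T j + T (j + 1)) + (T (j + 1) + T (j + 1 + 1)) := rfl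
  rw [h]
  have h2 := z2_add_self (T (j + 1))
  have h3 : j + 1 + 1 = j + 2 := rfl
  rw [h3]
  linear_combination h2

open Polynomial in
theorem red_step (D : DZero) {T : ℕ → ZMod 2} {m : ℕ} (h : Sym3 T m) (K : ℕ)
    (hm : m = 2 * K + 1) (hc : ∀ l < K, cnd T K l = 0) (j : ℕ) (hj : 2 ≤ j) (hjm : j + 4 ≤ m) :
    T j = T (j + 2) := by
  obtain ⟨n, rfl⟩ : ∃ n, K = n + 3 := ⟨K - 3, by omega⟩
  have hcond := h.cond (n + 3) hm hc
  have key := D n (fs T) ?_ ?_ ?_ (j - 2) (by omega)
  · rw [fs_X, tri_two] at key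
    have e1 : j - 2 + 2 = j := by omega
    rw [e1] at key
    have := z2_add_self (T (j + 2))
    linear_combination key - this
  · intro p hp
    refine Polynomial.induction_with_natDegree_le
      (fun p => fs T (p.comp (X + 1)) = fs T p) (2 * n + 1) ?_ ?_ ?_ p hp
    · simp
    · intro i c _ hi
      have e1 : (C c * X ^ i : (ZMod 2)[X]).comp (X + 1) = c • (X + 1) ^ i := by
        simp [smul_eq_C_mul]
      have e2 : (C c * X ^ i : (ZMod 2)[X]) = c • X ^ i := by
        simp [smul_eq_C_mul]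
      rw [e1, e2, map_smul, map_smul, fs_X1, fs_X, h.swap (i + 2) 2 (by omega)]
    · intro p q _ _ h1 h2
      rw [add_comp, map_add, map_add, h1, h2]
  · intro i hi
    rw [fs_X, fs_X, h.rev 2 (i + 2) (by omega)]
    congr 1
    omega
  · intro F hF
    refine Polynomial.induction_with_natDegree_le
      (fun F => fs T (X * F.comp (X ^ 2)) = fs T (X * F.comp (X ^ 2 + X))) n ?_ ?_ ?_ F hF
    · simp
    · intro q c _ hq
      have e1 : (X * (C c * X ^ q : (ZMod 2)[X]).comp (X ^ 2)) = c • X ^ (2 * q + 1) := by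
        rw [mul_comp, C_comp, X_pow_comp, smul_eq_C_mul]
        ring
      have e2 : ((X ^ 2 + X) ^ 2 * (X * (C c * X ^ q : (ZMod 2)[X]).comp (X ^ 2 + X))) =
          c • (X ^ (q + 3) * (X + 1) ^ (q + 2)) := by
        rw [mul_comp, C_comp, X_pow_comp, smul_eq_C_mul]
        have : (X ^ 2 + X : (ZMod 2)[X]) = X * (X + 1) := by ring
        rw [this, mul_pow, mul_pow]
        ring
      rw [e1, map_smul, fs_X, fs_apply T (X * (C c * X ^ q : (ZMod 2)[X]).comp (X ^ 2 + X)), e2,
        map_smul, fn_tri, tri_two]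
      congr 1
      have h1 := hcond (q + 2) (by omega) (by omega)
      have e3 : q + 2 + 1 = q + 3 := by omega
      have e4 : 2 * (q + 2) - 1 = 2 * q + 1 + 2 := by omega
      have e5 : 2 * (q + 2) + 1 = 2 * q + 1 + 2 + 2 := by omega
      rw [e3, e4, e5] at h1
      exact h1.symm
    · intro p q _ _ h1 h2
      rw [add_comp, add_comp, mul_add, mul_add, map_add, map_add, h1, h2]

theorem red_const (D : DZero) {T : ℕ → ZMod 2} {m : ℕ} (h : Sym3 T m) (K : ℕ)
    (hm : m = 2 * K + 1) (hc : ∀ l < K, cnd T K l = 0) (i : ℕ) (hi : 1 ≤ i) (him : i < m) :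
    T i = T 2 := by
  have hst := red_step D h K hm hc
  have h12 : T 1 = T 2 := by
    have h1 := h.cond K hm hc 1 le_rfl (by omega)
    have h2 : tri T 1 (1 + 1) = T 2 + T 3 := rfl
    rw [h2] at h1
    have h3 : T (2 * 1 - 1) + T (2 * 1 + 1) = T 1 + T 3 := rfl
    rw [h3] at h1
    linear_combination -h1
  have hev : ∀ q, 2 + 2 * q + 2 ≤ m → T (2 + 2 * q) = T 2 := by
    intro q
    induction q with
    | zero => intro _; rfl
    | succ q ih =>
      intro hq
      rw [← ih (by omega), hst (2 + 2 * q) (by omega) (by omega)]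
      congr 1
  have hod : ∀ q, 3 + 2 * q + 2 ≤ m → T (3 + 2 * q) = T 3 := by
    intro q
    induction q with
    | zero => intro _; rfl
    | succ q ih =>
      intro hq
      rw [← ih (by omega), hst (3 + 2 * q) (by omega) (by omega)]
      congr 1
  rcases Nat.lt_or_ge i 2 with h2 | h2
  · have : i = 1 := by omega
    rw [this, h12]
  rcases Nat.lt_or_ge m (i + 2) with h3 | h3
  · rw [h.palin i (by omega)]
    have : m - i = 1 := by omega
    rw [this, h12]
  rcases Nat.even_or_odd i with h4 | h4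
  · obtain ⟨q, hq⟩ := h4
    have : i = 2 + 2 * (q - 1) := by omega
    rw [this]
    exact hev _ (by omega)
  · obtain ⟨q, hq⟩ := h4
    have : i = 3 + 2 * (q - 1) := by omega
    rw [this, hod _ (by omega), h.palin 3 (by omega)]
    have e2 : m - 3 = 2 + 2 * (K - 2) := by omega
    rw [e2]
    exact hev _ (by omega)

/-- Collisions with odd degrees and symmetric degree sequence have the sum `1'`. -/
theorem palin_collision (D : DZero) {m : ℕ} (s₁ s₂ : Fin m → ZMod 2) (hc : Collision s₁ s₂)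
    (ho : ∀ i, Odd (deg s₁ i)) (hp : SymmetricDegrees s₁) : s₁ + s₂ = oneZero m := by
  have ho2 : ∀ i, Odd (deg s₂ i) := fun i => hc.deg_eq i ▸ ho i
  have hp2 : SymmetricDegrees s₂ := fun i h1 h2 => by
    rw [← hc.deg_eq, ← hc.deg_eq]; exact hp i h1 h2
  have a1 := sym3_of_palin s₁ ho hp
  have a2 := sym3_of_palin s₂ ho2 hp2
  obtain ⟨K, hK⟩ := even_vertices s₁ ho
  have hT : Sym3 (ext (s₁ + s₂)) m := by
    rw [compl_sum, ext_add']
    exact a1.add a2
  have hcz := cnd_zero s₁ s₂ hc.deg_eq a1 a2 K hK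
  have hconst := red_const D hT K hK hcz
  have hlast : ext (s₁ + s₂) m = 0 := by
    rw [hT.palin m le_rfl, Nat.sub_self, ext_zero]
  have hbit : ∀ a : ZMod 2, a = 0 ∨ a = 1 := by decide
  rcases hbit (ext (s₁ + s₂) 2) with h0 | h0
  · exfalso
    apply hc.ne
    have hz : s₁ + s₂ = 0 := by
      apply ext_injective
      intro i
      have hz' : ext (0 : Fin m → ZMod 2) i = 0 := by
        unfold ext
        split_ifs <;> rfl
      rw [hz']
      rcases Nat.eq_zero_or_pos i with h1 | h1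
      · subst h1; exact ext_zero _
      rcases lt_trichotomy i m with h2 | h2 | h2
      · rw [hconst i h1 h2, h0]
      · rw [h2, hlast]
      · exact ext_gt _ _ h2
    have := congrArg (fun t => t + s₂) hz
    simp only [add_assoc, z2fun, add_zero, zero_add] at this
    exact this
  · apply ext_injective
    intro i
    rw [ext_oneZero]
    rcases Nat.eq_zero_or_pos i with h1 | h1
    · subst h1
      rw [ext_zero, if_neg (by omega)]
    rcases lt_trichotomy i m with h2 | h2 | h2
    · rw [hconst i h1 h2, h0, if_pos ⟨h1, h2⟩]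
    · rw [h2, hlast, if_neg (by omega)]
    · rw [ext_gt _ _ h2, if_neg (by omega)]

end Pool.Agent.H61.Stein
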