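import Mathlib

/-! Pascal triangles mod 2 (left aligned), the binomial transform, Steinhaus entries. -/

namespace Pool.Agent.H61.Stein

open Finset

/-- Entries of a Steinhaus matrix above the diagonal, from its first row `x`:
`a (0,j) = x j` and `a (i,j) = a (i-1,j-1) + a (i-1,j)`. -/
def entry (x : ℕ → ZMod 2) : ℕ → ℕ → ZMod 2
  | 0, j => x j
  | i + 1, j => entry x i (j - 1) + entry x i j

/-- left aligned Pascal triangle mod 2 with top row `f`. -/
def tri (f : ℕ → ZMod 2) : ℕ → ℕ → ZMod 2
  | 0, j => f j
  | i + 1, j => tri f i j + tri f i (j + 1)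

theorem z2_add_self (a : ZMod 2) : a + a = 0 := CharTwo.add_self_eq_zero a

theorem tri_unique (e : ℕ → ℕ → ZMod 2) (h : ∀ i j, e (i + 1) j = e i j + e i (j + 1)) (i j : ℕ) :
    e i j = tri (e 0) i j := by
  induction i generalizing j with
  | zero => rfl
  | succ i ih => rw [h, ih, ih]; rfl

theorem tri_right (f : ℕ → ZMod 2) (i j : ℕ) : tri f i (j + 1) = tri f i j + tri f (i + 1) j := by
  have : tri f (i + 1) j = tri f i j + tri f i (j + 1) := rfl
  rw [this]
  have h2 := z2_add_self (tri f i j)
  linear_combination (-1 : ZMod 2) * h2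

/-- `B ∘ B = id`. -/
theorem tri_tri (f : ℕ → ZMod 2) (i j : ℕ) : tri (fun k => tri f k 0) i j = tri f j i := by
  have := tri_unique (fun i j => tri f j i) (fun i j => by
    exact tri_right f j i) i j
  exact this.symm

theorem tri_add (f g : ℕ → ZMod 2) (i j : ℕ) :
    tri (fun k => f k + g k) i j = tri f i j + tri g i j := by
  induction i generalizing j with
  | zero => rfl
  | succ i ih =>
    show tri (fun k => f k + g k) i j + tri (fun k => f k + g k) i (j+1) =
      (tri f i j + tri f i (j+1)) + (tri g i j + tri g i (j+1))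
    rw [ih, ih]; ring

theorem tri_local (f g : ℕ → ZMod 2) (M : ℕ) (h : ∀ k ≤ M, f k = g k) (i j : ℕ) (hij : i + j ≤ M) :
    tri f i j = tri g i j := by
  induction i generalizing j with
  | zero => exact h j (by omega)
  | succ i ih =>
    show tri f i j + tri f i (j+1) = tri g i j + tri g i (j+1)
    rw [ih j (by omega), ih (j+1) (by omega)]

theorem tri_const (c : ZMod 2) (i j : ℕ) : tri (fun _ => c) (i + 1) j = 0 := by
  induction i generalizing j with
  | zero => exact z2_add_self c
  | succ i ih =>
    show tri (fun _ => c) (i+1) j + tri (fun _ => c) (i+1) (j+1) = 0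
    rw [ih, ih]; rfl

theorem tri_shift (f : ℕ → ZMod 2) (i j : ℕ) : tri (fun k => f (k + 1)) i j = tri f i (j + 1) := by
  have := tri_unique (fun i j => tri f i (j + 1)) (fun i j => rfl) i j
  exact this.symm

/-- the entries read from the right end. -/
theorem entry_right (x : ℕ → ZMod 2) (N i k : ℕ) :
    entry x i (N - k) = tri (fun k => x (N - k)) i k := by
  induction i generalizing k with
  | zero => rfl
  | succ i ih =>
    show entry x i (N - k - 1) + entry x i (N - k) = _
    have h : N - k - 1 = N - (k + 1) := by omega
    rw [h, ih, ih]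
    show _ = tri (fun k => x (N - k)) i k + tri (fun k => x (N - k)) i (k + 1)
    ring

/-- the entries read from the diagonal. -/
theorem entry_left (x : ℕ → ZMod 2) (i k : ℕ) :
    entry x i (i + 1 + k) = tri (fun k => x (k + 1)) i k := by
  induction i generalizing k with
  | zero =>
    show x (0 + 1 + k) = x (k + 1)
    congr 1; omega
  | succ i ih =>
    show entry x i (i + 1 + 1 + k - 1) + entry x i (i + 1 + 1 + k) = _
    have h1 : i + 1 + 1 + k - 1 = i + 1 + k := by omega
    have h2 : i + 1 + 1 + k = i + 1 + (k + 1) := by omega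
    rw [h1, h2, ih, ih]; rfl

theorem entry_add (x y : ℕ → ZMod 2) (i j : ℕ) :
    entry (fun k => x k + y k) i j = entry x i j + entry y i j := by
  induction i generalizing j with
  | zero => rfl
  | succ i ih =>
    show entry (fun k => x k + y k) i (j-1) + entry (fun k => x k + y k) i j =
      (entry x i (j-1) + entry x i j) + (entry y i (j-1) + entry y i j)
    rw [ih, ih]; ring

theorem entry_succ (x : ℕ → ZMod 2) (i j : ℕ) :
    entry x (i + 1) (j + 1) = entry x i j + entry x i (j + 1) := rfl

/-- column sums telescope. -/
theorem col_sum (x : ℕ → ZMod 2) (i : ℕ) :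
    ∑ j ∈ range i, entry x j i = x (i + 1) + entry x i (i + 1) := by
  have key : ∀ k, ∑ j ∈ range k, entry x j i = x (i + 1) + entry x k (i + 1) := by
    intro k
    induction k with
    | zero => simp [entry, z2_add_self]
    | succ k ih =>
      rw [sum_range_succ, ih, entry_succ]
      ring
  exact key i

/-- row sums telescope. -/
theorem row_sum (x : ℕ → ZMod 2) (i N : ℕ) (h : i + 1 ≤ N) :
    ∑ j ∈ Ioc (i + 1) N, entry x (i + 1) j = entry x i (i + 1) + entry x i N := by
  induction N, h using Nat.le_induction with
  | base => simp [z2_add_self]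
  | succ N hN ih =>
    rw [← Finset.insert_Ioc_right_eq_Ioc_add_one (by omega), sum_insert (by simp), ih, entry_succ]
    have := z2_add_self (entry x i N)
    linear_combination this

end Pool.Agent.H61.Stein
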