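import Pool.Agent.H61.Stein.Odd

/-! Collisions with sum `1' = 1…10`. -/

namespace Pool.Agent.H61.Stein

open Finset

theorem entry_oneZero (m : ℕ) (hm : 1 ≤ m) (p : ℕ) : ∀ q, p < q → q ≤ m →
    entry (ext (oneZero m)) p q = if (p = 0 ∧ q < m) ∨ (p ≠ 0 ∧ q = m) then 1 else 0 := by
  induction p with
  | zero =>
    intro q hq hqm
    show ext (oneZero m) q = _
    rw [ext_oneZero]
    by_cases h : q < m
    · rw [if_pos (by omega), if_pos (by omega)]
    · rw [if_neg (by omega), if_neg (by omega)]
  | succ p ih =>
    intro q hq hqm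
    obtain ⟨q', rfl⟩ : ∃ q', q = q' + 1 := ⟨q - 1, by omega⟩
    rw [entry_succ, ih q' (by omega) (by omega), ih (q' + 1) (by omega) hqm]
    by_cases hp : p = 0
    · by_cases hq2 : q' + 1 = m
      · rw [if_pos (by omega), if_neg (by omega), if_pos (by omega)]; rfl
      · rw [if_pos (by omega), if_pos (by omega), if_neg (by omega)]; rfl
    · by_cases hq2 : q' + 1 = m
      · rw [if_neg (by omega), if_pos (by omega), if_pos (by omega)]; rfl
      · rw [if_neg (by omega), if_neg (by omega), if_neg (by omega)]; rfl

theorem mt_add (x y : ℕ → ZMod 2) (i j : ℕ) :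
    mt (fun k => x k + y k) i j = mt x i j + mt y i j := by
  unfold mt
  split_ifs
  · exact entry_add x y i j
  · exact entry_add x y j i
  · simp

theorem ext_add' {m : ℕ} (s t : Fin m → ZMod 2) : ext (s + t) = fun k => ext s k + ext t k := by
  funext k; exact ext_add s t k

/-- adding `1'`, middle vertices. -/
theorem add_mid {m : ℕ} (s : Fin m → ZMod 2) (i : ℕ) (hi : 1 ≤ i) (him : i < m) :
    dg (ext (s + oneZero m)) m i + 2 * (ext s i).val + 2 * (entry (ext s) i m).val =
      dg (ext s) m i + 2 := by
  have h := toggle_two (fun j => mt (ext s) i j) (fun j => mt (ext (s + oneZero m)) i j) m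
    (by omega) (by
      intro j hj
      show mt (ext (s + oneZero m)) i j = mt (ext s) i j + _
      rw [ext_add', mt_add]
      congr 1
      unfold mt
      rcases lt_trichotomy i j with h | h | h
      · rw [if_pos h, entry_oneZero m (by omega) i j h hj]
        by_cases h2 : j = m
        · rw [if_pos (by omega), if_pos (by omega)]
        · rw [if_neg (by omega), if_neg (by omega)]
      · rw [if_neg (by omega), if_neg (by omega), if_neg (by omega)]
      · rw [if_neg (by omega), if_pos h, entry_oneZero m (by omega) j i h (by omega)]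
        by_cases h2 : j = 0
        · rw [if_pos (by omega), if_pos (by omega)]
        · rw [if_neg (by omega), if_neg (by omega)])
  have h3 : mt (ext s) i 0 = ext s i := by
    unfold mt; rw [if_neg (by omega), if_pos (by omega)]; rfl
  have h4 : mt (ext s) i m = entry (ext s) i m := by
    unfold mt; rw [if_pos him]
  rw [h3, h4] at h
  exact h

theorem add_zero_vertex {m : ℕ} (s : Fin m → ZMod 2) (hm : 1 ≤ m) :
    dg (ext (s + oneZero m)) m 0 + 2 * ∑ j ∈ range (m - 1), (ext s (j + 1)).val =
      dg (ext s) m 0 + (m - 1) := by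
  have h := toggle_mid (fun j => mt (ext s) 0 j) (fun j => mt (ext (s + oneZero m)) 0 j) m
    (by
      intro j hj
      show mt (ext (s + oneZero m)) 0 j = mt (ext s) 0 j + _
      rw [ext_add', mt_add]
      congr 1
      unfold mt
      rcases Nat.eq_zero_or_pos j with h | h
      · subst h
        rw [if_neg (by omega), if_neg (by omega), if_neg (by omega)]
      · rw [if_pos h, entry_oneZero m hm 0 j h hj]
        by_cases h2 : j < m
        · rw [if_pos (by omega), if_pos (by omega)]
        · rw [if_neg (by omega), if_neg (by omega)])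
  exact h

theorem add_last_vertex {m : ℕ} (s : Fin m → ZMod 2) (hm : 1 ≤ m) :
    dg (ext (s + oneZero m)) m m + 2 * ∑ j ∈ range (m - 1), (entry (ext s) (j + 1) m).val =
      dg (ext s) m m + (m - 1) := by
  have h := toggle_mid (fun j => mt (ext s) m j) (fun j => mt (ext (s + oneZero m)) m j) m
    (by
      intro j hj
      show mt (ext (s + oneZero m)) m j = mt (ext s) m j + _
      rw [ext_add', mt_add]
      congr 1
      unfold mt
      rw [if_neg (by omega)]
      rcases Nat.lt_or_ge j m with h | h
      · rw [if_pos h, entry_oneZero m hm j m h le_rfl]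
        by_cases h2 : j = 0
        · rw [if_neg (by omega), if_neg (by omega)]
        · rw [if_pos (by omega), if_pos (by omega)]
      · rw [if_neg (by omega), if_neg (by omega)])
  have e : ∑ j ∈ range (m - 1), (mt (ext s) m (j + 1)).val =
      ∑ j ∈ range (m - 1), (entry (ext s) (j + 1) m).val := by
    refine sum_congr rfl fun j hj => ?_
    rw [mem_range] at hj
    unfold mt
    rw [if_neg (by omega), if_pos (by omega)]
  rw [← e]
  exact h

/-- When are the degree sequences of `s` and `s + 1'` equal? -/
theorem unit_iff {m : ℕ} (s : Fin m → ZMod 2) (hm : 1 ≤ m) :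
    (∀ i, deg s i = deg (s + oneZero m) i) ↔
      (∀ i, 1 ≤ i → i < m → (ext s i).val + (entry (ext s) i m).val = 1) ∧
      2 * ∑ j ∈ range (m - 1), (ext s (j + 1)).val = m - 1 ∧
      2 * ∑ j ∈ range (m - 1), (entry (ext s) (j + 1) m).val = m - 1 := by
  have hz := add_zero_vertex s hm
  have hl := add_last_vertex s hm
  constructor
  · intro h
    refine ⟨?_, ?_, ?_⟩
    · intro i hi him
      have h1 := add_mid s i hi him
      have h2 := h ⟨i, by omega⟩
      rw [deg_eq_dg, deg_eq_dg] at h2
      simp only at h2
      omega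
    · have h2 := h 0
      rw [deg_eq_dg, deg_eq_dg] at h2
      simp only [Fin.val_zero] at h2
      omega
    · have h2 := h (Fin.last m)
      rw [deg_eq_dg, deg_eq_dg] at h2
      simp only [Fin.val_last] at h2
      omega
  · rintro ⟨h1, h2, h3⟩ i
    rw [deg_eq_dg, deg_eq_dg]
    rcases Nat.eq_zero_or_pos (i : ℕ) with h0 | h0
    · rw [h0]; omega
    rcases Nat.lt_or_ge (i : ℕ) m with hi | hi
    · have h4 := add_mid s i h0 hi
      have h5 := h1 i h0 hi
      omega
    · have h6 : (i : ℕ) = m := by omega
      rw [h6]; omega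

theorem weight_last {m : ℕ} (s : Fin m → ZMod 2) (hm : 1 ≤ m) :
    weight s = ∑ j ∈ range (m - 1), (ext s (j + 1)).val + (ext s m).val := by
  rw [weight_eq]
  have e : range m = range (m - 1 + 1) := by congr 1; omega
  rw [e, sum_range_succ]
  have e2 : m - 1 + 1 = m := by omega
  rw [e2]

/-- No collision with sum `1'` among the graphs with all degrees even. -/
theorem even_unit_false {m : ℕ} (s : Fin m → ZMod 2) (hm : 2 ≤ m) (he : ∀ i, Even (deg s i))
    (hd : ∀ i, deg s i = deg (s + oneZero m) i) : False := by
  obtain ⟨h1, h2, -⟩ := (unit_iff s (by omega)).1 hd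
  have hx : ∀ i, 1 ≤ i → i < m → (ext s i).val + (ext s (m - i)).val = 1 := by
    intro i hi him
    rw [← even_data s he i hi him]
    exact h1 i hi him
  set x := ext s with hxdef
  -- the last letter vanishes
  have hlast : x m = 0 := by
    have a1 := even_data s he 1 le_rfl (by omega)
    obtain ⟨k, rfl⟩ : ∃ k, m = k + 1 := ⟨m - 1, by omega⟩
    have a2 : entry x 1 (k + 1) = x k + x (k + 1) := rfl
    rw [← hxdef, a2] at a1
    have a3 : k + 1 - 1 = k := by omega
    rw [a3] at a1
    linear_combination a1
  have h0 := he 0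
  rw [deg_zero, weight_last s (by omega), ← hxdef, hlast, ZMod.val_zero, add_zero] at h0
  obtain ⟨w, hw⟩ := h0
  have hm4 : m = 4 * w + 1 := by omega
  have hw1 : 1 ≤ w := by omega
  have hp := fun i hi => par_of_even s he i hi
  have p1 := hp (1 + 1) (by omega)
  have p2 := hp (2 + 1) (by omega)
  rw [par_mid _ _ _ (by omega)] at p1 p2
  rw [← hxdef] at p1 p2
  have q1 : tri (fun k => x (k + 2)) 1 0 + tri (fun k => x (m - k)) 1 0 + x (1 + 2) =
      (x 2 + x 3) + (x m + x (m - 1)) + x 3 := rfl
  have q2 : tri (fun k => x (k + 2)) 2 0 + tri (fun k => x (m - k)) 2 0 + x (2 + 2) =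
      ((x 2 + x 3) + (x 3 + x 4)) + ((x m + x (m - 1)) + (x (m - 1) + x (m - 2))) + x 4 := rfl
  rw [q2, hlast] at p2
  have b1 := z2_add_self (x 3)
  have b2 := z2_add_self (x 4)
  have b3 := z2_add_self (x (m - 1))
  have b4 := z2_add_self (x (m - 2))
  have c1 : x 2 = x (m - 2) := by linear_combination p2 - b1 - b2 - b3 - b4
  have c2 := hx 2 (by omega) (by omega)
  rw [← c1] at c2
  have : ∀ a : ZMod 2, a.val + a.val ≠ 1 := by decide
  exact this _ c2

theorem oneZero_one : oneZero 1 = 0 := by
  funext i
  unfold oneZero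
  rw [if_neg (by omega)]
  rfl

theorem weight_oneZero (m : ℕ) : weight (oneZero m) = m - 1 := by
  rcases Nat.eq_zero_or_pos m with h | h
  · subst h; rfl
  · rw [weight_last _ h]
    have h1 : (ext (oneZero m) m).val = 0 := by
      rw [ext_oneZero, if_neg (by omega)]; rfl
    have h2 : ∑ j ∈ range (m - 1), (ext (oneZero m) (j + 1)).val = ∑ j ∈ range (m - 1), 1 := by
      refine sum_congr rfl fun j hj => ?_
      rw [mem_range] at hj
      rw [ext_oneZero, if_pos (by omega)]; rfl
    rw [h1, h2]; simp

theorem size_ge {m : ℕ} (s : Fin m → ZMod 2) (h : s ≠ s + oneZero m) : 2 ≤ m := by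
  by_contra hlt
  apply h
  have : m = 0 ∨ m = 1 := by omega
  rcases this with h0 | h0
  · subst h0; funext i; exact i.elim0
  · subst h0; rw [oneZero_one, add_zero]

/-- Collisions with sum `1'`: all degrees are odd and `n = 2 mod 4`. -/
theorem unit_collision {m : ℕ} (s : Fin m → ZMod 2) (h : Collision s (s + oneZero m)) :
    (∀ i, Odd (deg s i)) ∧ (m + 1) % 4 = 2 := by
  have hm := size_ge s h.ne
  rcases h.parity with he | ho
  · exact (even_unit_false s hm he h.deg_eq).elim
  · refine ⟨ho, ?_⟩
    obtain ⟨-, -, -, h4, -, -⟩ := odd_collision s (s + oneZero m) h.deg_eq ho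
    have e : s + (s + oneZero m) = oneZero m := by
      rw [← add_assoc]
      have : s + s = 0 := by funext i; exact z2_add_self _
      rw [this, zero_add]
    rw [e, weight_oneZero] at h4
    omega

end Pool.Agent.H61.Stein
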